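import Pool.Agent.Work.MP_4d52ff_nt.Graded

set_option autoImplicit false

namespace Pool.Agent.Work.MP_4d52ff_nt

open Finset

/-- directness of the weight-graded sum, in the form of the problem -/
def Direct : Prop :=
  ∀ p : ℕ, ∀ z : ℕ → ℝ, (∀ j ≤ p, z j ∈ Z j) →
    (∑ j ∈ Finset.range (p + 1), z j) = 0 → ∀ j ≤ p, z j = 0

/-- MZVs of weight `w` whose index dominates the pattern `c` -/
def patSet (c : List ℕ) (w : ℕ) : Set ℝ :=
  {x : ℝ | ∃ t : ℕ, ∃ k : Fin t → ℕ,
          (∀ i, 1 ≤ k i) ∧ (∀ h : 0 < t, 2 ≤ k ⟨0, h⟩) ∧ (∑ i, k i) = w ∧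
          List.SublistForall₂ (· ≤ ·) c (List.ofFn k) ∧
          x = ∑' n : {n : Fin t → ℕ // StrictAnti n ∧ ∀ i, 1 ≤ n i},
                ∏ i, (((n.1 i : ℕ) : ℝ) ^ (k i))⁻¹}

lemma mem_patSet_iff (c : List ℕ) (w : ℕ) (x : ℝ) :
    x ∈ patSet c w ↔ ∃ k : List ℕ, Adm k ∧ k.sum = w ∧ List.SublistForall₂ (· ≤ ·) c k ∧
      x = zetaL k := by
  constructor
  · rintro ⟨t, k, h1, h2, h3, h4, rfl⟩
    refine ⟨List.ofFn k, adm_ofFn h1 h2, ?_, h4, ?_⟩
    · rw [List.sum_ofFn]; exact h3
    · exact tsum_term k h1 h2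
  · rintro ⟨k, hk, hs, hc, rfl⟩
    have h1 : ∀ i : Fin k.length, 1 ≤ k.get i := fun i => hk.1 _ (List.get_mem _ _)
    have h2 : ∀ h : 0 < k.length, 2 ≤ k.get ⟨0, h⟩ := by
      intro h
      cases k with
      | nil => simp at h
      | cons a k =>
        rw [Adm_cons] at hk
        exact hk.1
    refine ⟨k.length, fun i => k.get i, h1, h2, ?_, ?_, ?_⟩
    · rw [← hs, ← List.sum_ofFn, List.ofFn_get]
    · rw [List.ofFn_get]; exact hc
    · have := tsum_term (fun i => k.get i) h1 h2
      rw [List.ofFn_get] at this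
      exact this.symm

lemma patSet_subset (c : List ℕ) (w : ℕ) : patSet c w ⊆ mzvSet w := by
  intro x hx
  rw [mem_patSet_iff] at hx
  obtain ⟨k, h1, h2, -, h3⟩ := hx
  exact (mem_mzvSet_iff _ _).2 ⟨k, h1, h2, h3⟩

/-- the rational span of `patSet c w` -/
noncomputable def I (c : List ℕ) (w : ℕ) : Submodule ℚ ℝ := Submodule.span ℚ (patSet c w)

lemma I_le (c : List ℕ) (w : ℕ) : I c w ≤ Z w := Submodule.span_mono (patSet_subset c w)

lemma stuffle_dom (k l : List ℕ) : ∀ m ∈ stuffle k l, List.SublistForall₂ (· ≤ ·) k m := by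
  induction hn : k.length + l.length using Nat.strong_induction_on generalizing k l with
  | _ n ih =>
    match k, l with
    | [], l => intro m _; exact List.SublistForall₂.nil
    | (a :: k), [] =>
      intro m hm
      rw [stuffle_cons_nil] at hm
      simp only [List.mem_singleton] at hm
      subst hm
      exact refl_of _ _
    | (a :: k), (b :: l) =>
      have h1 := ih _ (by simp only [← hn, List.length_cons]; omega) k (b :: l) rfl
      have h2 := ih _ (by simp only [← hn, List.length_cons]; omega) (a :: k) l rfl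
      have h3 := ih _ (by simp only [← hn, List.length_cons]; omega) k l rfl
      intro m hm
      rw [stuffle_cons_cons] at hm
      simp only [List.append_assoc, List.mem_append, List.mem_map] at hm
      rcases hm with ⟨m', hm', rfl⟩ | ⟨m', hm', rfl⟩ | ⟨m', hm', rfl⟩
      · exact List.SublistForall₂.cons le_rfl (h1 m' hm')
      · exact List.SublistForall₂.cons_right (h2 m' hm')
      · exact List.SublistForall₂.cons (Nat.le_add_right a b) (h3 m' hm')

theorem I_mul {c : List ℕ} {a b : ℕ} {x y : ℝ} (hx : x ∈ Z a) (hy : y ∈ I c b) :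
    x * y ∈ I c (a + b) := by
  unfold Z at hx
  unfold I at hy
  induction hx using Submodule.span_induction with
  | mem x hx =>
    induction hy using Submodule.span_induction with
    | mem y hy =>
      rw [mem_mzvSet_iff] at hx
      rw [mem_patSet_iff] at hy
      obtain ⟨k, hk, rfl, rfl⟩ := hx
      obtain ⟨l, hl, rfl, hc, rfl⟩ := hy
      rw [mul_comm, zetaL_mul l k hl hk]
      apply list_sum_mem
      intro z hz
      rw [List.mem_map] at hz
      obtain ⟨m, hm, rfl⟩ := hz
      obtain ⟨q1, q2⟩ := stuffle_adm l k hl hk m hm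
      apply Submodule.subset_span
      rw [mem_patSet_iff]
      refine ⟨m, q1, by rw [q2, add_comm], ?_, rfl⟩
      exact _root_.trans hc (stuffle_dom l k m hm)
    | zero => rw [mul_zero]; exact Submodule.zero_mem _
    | add y z _ _ h1 h2 => rw [mul_add]; exact Submodule.add_mem _ h1 h2
    | smul c y _ h => rw [mul_smul_comm]; exact Submodule.smul_mem _ _ h
  | zero => rw [zero_mul]; exact Submodule.zero_mem _
  | add y z _ _ h1 h2 => rw [add_mul]; exact Submodule.add_mem _ h1 h2
  | smul c y _ h => rw [smul_mul_assoc]; exact Submodule.smul_mem _ _ h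

lemma exists_ne_zero_mem_I (c : List ℕ) : ∃ w, ∃ y ∈ I c w, y ≠ 0 := by
  have hA : Adm (2 :: c.map (fun a => a + 1)) := by
    rw [Adm_cons]
    refine ⟨le_rfl, fun x hx => ?_⟩
    rw [List.mem_map] at hx
    obtain ⟨a, -, rfl⟩ := hx
    omega
  refine ⟨(2 :: c.map (fun a => a + 1)).sum, zetaL (2 :: c.map (fun a => a + 1)),
    Submodule.subset_span ?_, (zetaL_pos _ hA).ne'⟩
  rw [mem_patSet_iff]
  refine ⟨_, hA, rfl, ?_, rfl⟩
  apply List.SublistForall₂.cons_right
  induction c with
  | nil => exact List.SublistForall₂.nil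
  | cons a c ih =>
    rw [List.map_cons]
    refine List.SublistForall₂.cons (Nat.le_succ a) (ih ?_)
    rw [Adm_cons] at hA ⊢
    exact ⟨hA.1, fun x hx => hA.2 x (by rw [List.map_cons]; exact List.mem_cons_of_mem _ hx)⟩

/-- failure of directness gives a nontrivial relation with top weight `b` -/
lemma relation_of_not_direct (h : ¬ Direct) :
    ∃ b : ℕ, 0 < b ∧ ∃ z ∈ Z b, z ≠ 0 ∧ z ∈ Win b (b - 1) := by
  unfold Direct at h
  push Not at h
  obtain ⟨p, z, hz, hsum, j, hj, hzj⟩ := h
  classical
  have hne : ((Finset.range (p + 1)).filter (fun j => z j ≠ 0)).Nonempty :=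
    ⟨j, by simp only [Finset.mem_filter, Finset.mem_range]; exact ⟨by omega, hzj⟩⟩
  obtain ⟨b, hb, hbmax⟩ := Finset.exists_max_image _ (fun j => j) hne
  simp only [Finset.mem_filter, Finset.mem_range] at hb hbmax
  have hsum' : ∑ j ∈ Finset.range (b + 1), z j = 0 := by
    rw [← hsum]
    apply Finset.sum_subset
    · intro x hx
      simp only [Finset.mem_range] at hx ⊢
      omega
    · intro x hx hx'
      simp only [Finset.mem_range] at hx hx'
      by_contra h0
      have := hbmax x ⟨hx, h0⟩
      omega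
  rw [Finset.sum_range_succ] at hsum'
  have hbz : z b = -∑ j ∈ Finset.range b, z j := by linarith
  have hb0 : 0 < b := by
    rcases Nat.eq_zero_or_pos b with h0 | h0
    · subst h0
      simp at hbz
      exact absurd hbz hb.2
    · exact h0
  refine ⟨b, hb0, z b, hz b (by omega), hb.2, ?_⟩
  rw [hbz]
  apply Submodule.neg_mem
  apply Submodule.sum_mem
  intro j hj
  rw [Finset.mem_range] at hj
  apply mem_Win_of (i := b - 1 - j) (by omega)
  have e : ((b : ℤ) - 1 - ((b - 1 - j : ℕ) : ℤ)) = (j : ℤ) := by omega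
  rw [e, ZZ_natCast]
  exact hz j (by omega)

theorem thin_main (c : List ℕ) (F : ℕ → Finset ℕ) (hcard : ∀ m, m ≤ (F m).card)
    (hF : ∀ m, ∀ x ∈ F m, ∀ y ∈ F m, m * (x - y) ≤ y) :
    (∀ m, ∀ z : ℕ → ℝ, (∀ j ∈ F m, z j ∈ I c j) → ∑ j ∈ F m, z j = 0 → ∀ j ∈ F m, z j = 0) ↔
      Direct := by
  constructor
  · intro hdir
    by_contra hnd
    obtain ⟨b, hb, z, hzb, hz0, hzw⟩ := relation_of_not_direct hnd
    obtain ⟨w₀, y₂, hy₂, hy₂0⟩ := exists_ne_zero_mem_I c
    set m := (2 ^ b - 1) * b + w₀ + 2 + (b + 1) with hm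
    obtain ⟨G, hGF, hG⟩ := Finset.exists_subset_card_eq (show b + 1 ≤ (F m).card from
      le_trans (by omega) (hcard m))
    set s := G.orderEmbOfFin hG with hs
    have hsmem : ∀ l, s l ∈ G := fun l => Finset.orderEmbOfFin_mem _ _ _
    have hmono : Monotone s := s.monotone
    have hstr : StrictMono s := s.strictMono
    set δ := s (Fin.last b) - s 0 with hδ
    have hδ1 : 1 ≤ δ := by
      have : s 0 < s (Fin.last b) := hstr (by
        rw [Fin.lt_def]; simpa using hb)
      omega
    have ha : (2 ^ b - 1) * b * δ + w₀ + 2 ≤ s 0 := by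
      have h1 := hF m _ (hGF (hsmem (Fin.last b))) _ (hGF (hsmem 0))
      rw [← hδ] at h1
      refine le_trans ?_ h1
      calc (2 ^ b - 1) * b * δ + w₀ + 2
          ≤ (2 ^ b - 1) * b * δ + (w₀ + 2) * δ := by nlinarith
        _ = ((2 ^ b - 1) * b + (w₀ + 2)) * δ := by ring
        _ ≤ m * δ := Nat.mul_le_mul_right _ (by omega)
    obtain ⟨N, x, hN, hx, hxm, hxs⟩ := propagate hb hz0 hzb hzw (s 0) δ w₀ (fun l => s l)
      (fun l => ⟨hmono (Fin.zero_le l), by
        have := hmono (Fin.le_last l)
        omega⟩) ha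
    obtain ⟨y₁, hy₁, hy₁0⟩ := exists_ne_zero_mem_Z (N - w₀) (by omega)
    obtain ⟨l₀, hl₀⟩ := Function.ne_iff.mp hx
    have hinj : Function.Injective s := s.injective
    have key : ∀ l, x l * (y₁ * y₂) ∈ I c (s l) := by
      intro l
      have h2 := hxm l
      rcases lt_or_ge ((s l : ℤ) - N) 0 with h3 | h3
      · rw [ZZ_of_neg h3, Submodule.mem_bot] at h2
        rw [h2, zero_mul]; exact Submodule.zero_mem _
      · obtain ⟨k, hk⟩ := Int.eq_ofNat_of_zero_le h3
        rw [hk, ZZ_natCast] at h2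
        have h4 := I_mul (Z_mul h2 hy₁) hy₂
        rw [mul_assoc] at h4
        convert h4 using 2
        omega
    set z' : ℕ → ℝ := fun j => ∑ l, if s l = j then x l * (y₁ * y₂) else 0 with hz'
    have hz's : ∀ l, z' (s l) = x l * (y₁ * y₂) := by
      intro l
      rw [hz']
      simp only
      rw [Finset.sum_eq_single l]
      · simp
      · intro l' _ hne
        rw [if_neg]
        intro h5
        exact hne (hinj h5)
      · intro h; exact absurd (Finset.mem_univ _) h
    have h6 := hdir m z' (by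
      intro j _
      apply Submodule.sum_mem
      intro l _
      split_ifs with h7
      · rw [← h7]; exact key l
      · exact Submodule.zero_mem _) (by
      rw [hz', Finset.sum_comm]
      have : ∀ l, ∑ j ∈ F m, (if s l = j then x l * (y₁ * y₂) else 0) = x l * (y₁ * y₂) := by
        intro l
        rw [Finset.sum_ite_eq, if_pos (hGF (hsmem l))]
      simp only [this]
      rw [← Finset.sum_mul, hxs, zero_mul]) (s l₀) (hGF (hsmem l₀))
    rw [hz's] at h6
    have h8 : y₁ * y₂ ≠ 0 := mul_ne_zero hy₁0 hy₂0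
    rcases mul_eq_zero.mp h6 with h9 | h9
    · exact hl₀ h9
    · exact h8 h9
  · intro hdir m z hz hsum j hj
    set p := (F m).sup id with hp
    have hle : ∀ j ∈ F m, j ≤ p := fun j hj => Finset.le_sup (f := id) hj
    classical
    have h1 := hdir p (fun j => if j ∈ F m then z j else 0) (by
      intro j _
      split_ifs with h
      · exact I_le _ _ (hz j h)
      · exact Submodule.zero_mem _) (by
      have e : ∑ j ∈ Finset.range (p + 1), (if j ∈ F m then z j else 0) = ∑ j ∈ F m, z j := by
        rw [← Finset.sum_filter]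
        apply Finset.sum_congr _ (fun _ _ => rfl)
        ext j
        simp only [Finset.mem_filter, Finset.mem_range]
        constructor
        · exact fun h => h.2
        · intro h
          exact ⟨by have := hle j h; omega, h⟩
      rw [e, hsum]) j (hle j hj)
    simpa [hj] using h1

end Pool.Agent.Work.MP_4d52ff_nt
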