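import Pool.Agent.Work.MP_4d52ff_nt.Dichotomy
import Pool.Agent.Work.MP_4d52ff_nt.Pattern

set_option autoImplicit false

namespace Pool.Agent.Work.MP_4d52ff_nt

open Finset Polynomial

/-- real polynomials of degree at most `N` whose coefficient of `X ^ w` lies in `Z w` -/
def GP (N : ℕ) : Submodule ℚ ℝ[X] where
  carrier := {f | (∀ w ≤ N, f.coeff w ∈ Z w) ∧ ∀ w, N < w → f.coeff w = 0}
  add_mem' := by
    rintro f g ⟨hf, hf'⟩ ⟨hg, hg'⟩
    refine ⟨fun w hw => ?_, fun w hw => ?_⟩
    · rw [coeff_add]; exact (Z w).add_mem (hf w hw) (hg w hw)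
    · rw [coeff_add, hf' w hw, hg' w hw, add_zero]
  zero_mem' := ⟨fun w _ => by rw [coeff_zero]; exact (Z w).zero_mem, fun w _ => coeff_zero w⟩
  smul_mem' := by
    rintro c f ⟨hf, hf'⟩
    refine ⟨fun w hw => ?_, fun w hw => ?_⟩
    · rw [coeff_smul]; exact (Z w).smul_mem c (hf w hw)
    · rw [coeff_smul, hf' w hw, smul_zero]

lemma mem_GP {N : ℕ} {f : ℝ[X]} :
    f ∈ GP N ↔ (∀ w ≤ N, f.coeff w ∈ Z w) ∧ ∀ w, N < w → f.coeff w = 0 := Iff.rfl

/-- the coefficient map -/
def coeffMap (N : ℕ) : GP N →ₗ[ℚ] (∀ w : Fin (N + 1), Z (w : ℕ)) where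
  toFun f := fun w => ⟨(f : ℝ[X]).coeff w, f.2.1 w (by omega)⟩
  map_add' := by
    intro f g
    ext w
    simp
  map_smul' := by
    intro c f
    ext w
    simp

lemma coeffMap_bijective (N : ℕ) : Function.Bijective (coeffMap N) := by
  constructor
  · intro f g h
    apply Subtype.ext
    ext w
    by_cases hw : w ≤ N
    · have := congrFun h ⟨w, by omega⟩
      exact congrArg (fun x : Z w => (x : ℝ)) this
    · rw [f.2.2 w (by omega), g.2.2 w (by omega)]
  · intro y
    have hc : ∀ w, (∑ j : Fin (N + 1), monomial (j : ℕ) (y j : ℝ)).coeff w =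
        if h : w ≤ N then (y ⟨w, by omega⟩ : ℝ) else 0 := by
      intro w
      rw [finsetSum_coeff]
      simp only [coeff_monomial]
      split_ifs with h
      · rw [Finset.sum_eq_single (⟨w, by omega⟩ : Fin (N + 1))]
        · simp
        · intro b _ hb
          rw [if_neg]
          intro h'
          apply hb
          exact Fin.ext h'
        · intro h'
          exact absurd (Finset.mem_univ _) h'
      · apply Finset.sum_eq_zero
        intro b _
        rw [if_neg]
        have := b.2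
        omega
    refine ⟨⟨∑ j : Fin (N + 1), monomial (j : ℕ) (y j : ℝ), ?_, ?_⟩, ?_⟩
    · intro w hw
      rw [hc, dif_pos hw]
      exact (y ⟨w, by omega⟩).2
    · intro w hw
      rw [hc, dif_neg (by omega)]
    · ext w
      change (∑ j : Fin (N + 1), monomial (j : ℕ) (y j : ℝ)).coeff (w : ℕ) = y w
      rw [hc, dif_pos (by omega)]

/-- total of the dimensions -/
noncomputable def DD (N : ℕ) : ℕ := ∑ w ∈ Finset.range (N + 1), Module.finrank ℚ (Z w)

noncomputable def gpEquiv (N : ℕ) : GP N ≃ₗ[ℚ] (∀ w : Fin (N + 1), Z (w : ℕ)) :=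
  LinearEquiv.ofBijective (coeffMap N) (coeffMap_bijective N)

instance (N : ℕ) : FiniteDimensional ℚ (GP N) :=
  LinearEquiv.finiteDimensional (gpEquiv N).symm

lemma finrank_GP (N : ℕ) : Module.finrank ℚ (GP N) = DD N := by
  rw [(gpEquiv N).finrank_eq, Module.finrank_pi_fintype, DD,
    ← Fin.sum_univ_eq_sum_range (fun w => Module.finrank ℚ (Z w))]

/-- the sum of the weight spaces up to weight `N` -/
noncomputable def SS (N : ℕ) : Submodule ℚ ℝ := ⨆ w ∈ Finset.range (N + 1), Z w

/-- evaluation at one -/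
noncomputable def ev : ℝ[X] →ₗ[ℚ] ℝ := (Polynomial.leval (1 : ℝ)).restrictScalars ℚ

lemma ev_apply (f : ℝ[X]) : ev f = f.eval 1 := rfl

noncomputable def evN (N : ℕ) : GP N →ₗ[ℚ] ℝ := ev.comp (GP N).subtype

lemma evN_apply (N : ℕ) (f : GP N) : evN N f = (f : ℝ[X]).eval 1 := rfl

lemma eval_eq_sum_GP {N : ℕ} {f : ℝ[X]} (hf : f ∈ GP N) :
    f.eval 1 = ∑ w ∈ Finset.range (N + 1), f.coeff w := by
  rw [Polynomial.eval_eq_sum_range' (n := N + 1)]
  · simp
  · rw [Nat.lt_succ_iff, Polynomial.natDegree_le_iff_coeff_eq_zero]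
    exact fun w hw => hf.2 w hw

lemma monomial_mem_GP {N w : ℕ} (hw : w ≤ N) {x : ℝ} (hx : x ∈ Z w) :
    (monomial w x : ℝ[X]) ∈ GP N := by
  refine ⟨fun v _ => ?_, fun v hv => ?_⟩
  · rw [coeff_monomial]
    split_ifs with h
    · rw [← h]; exact hx
    · exact (Z v).zero_mem
  · rw [coeff_monomial, if_neg (by omega)]

lemma range_evN (N : ℕ) : LinearMap.range (evN N) = SS N := by
  apply le_antisymm
  · rintro _ ⟨f, rfl⟩
    rw [evN_apply, eval_eq_sum_GP f.2]
    apply Submodule.sum_mem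
    intro w hw
    have h1 : w ≤ N := by rw [Finset.mem_range] at hw; omega
    exact Submodule.mem_iSup_of_mem w (Submodule.mem_iSup_of_mem hw (f.2.1 w h1))
  · apply iSup₂_le
    intro w hw x hx
    rw [Finset.mem_range] at hw
    refine ⟨⟨monomial w x, monomial_mem_GP (by omega) hx⟩, ?_⟩
    rw [evN_apply]
    simp

instance (N : ℕ) : FiniteDimensional ℚ (SS N) := by
  rw [← range_evN]; infer_instance

lemma finrank_SS_add (N : ℕ) :
    Module.finrank ℚ (SS N) + Module.finrank ℚ (LinearMap.ker (evN N)) = DD N := by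
  rw [← range_evN, LinearMap.finrank_range_add_finrank_ker, finrank_GP]

lemma mul_mem_GP {p N : ℕ} {g f : ℝ[X]} (hg : g ∈ GP p) (hf : f ∈ GP N) : g * f ∈ GP (N + p) := by
  refine ⟨fun w _ => ?_, fun w hw => ?_⟩
  · rw [coeff_mul]
    apply Submodule.sum_mem
    rintro ⟨i, j⟩ hij
    rw [Finset.HasAntidiagonal.mem_antidiagonal] at hij
    simp only at hij ⊢
    by_cases hi : i ≤ p
    · by_cases hj : j ≤ N
      · rw [← hij]
        exact Z_mul (hg.1 i hi) (hf.1 j hj)
      · rw [hf.2 j (by omega), mul_zero]; exact (Z w).zero_mem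
    · rw [hg.2 i (by omega), zero_mul]; exact (Z w).zero_mem
  · rw [coeff_mul]
    apply Finset.sum_eq_zero
    rintro ⟨i, j⟩ hij
    rw [Finset.HasAntidiagonal.mem_antidiagonal] at hij
    simp only at hij ⊢
    by_cases hi : i ≤ p
    · rw [hf.2 j (by omega), mul_zero]
    · rw [hg.2 i (by omega), zero_mul]

/-- directness up to weight `p` -/
def DirectAt (p : ℕ) : Prop :=
  ∀ z : ℕ → ℝ, (∀ j ≤ p, z j ∈ Z j) →
    (∑ j ∈ Finset.range (p + 1), z j) = 0 → ∀ j ≤ p, z j = 0

lemma exists_rel {p : ℕ} (h : ¬ DirectAt p) : ∃ g ∈ GP p, g ≠ 0 ∧ g.eval 1 = 0 := by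
  unfold DirectAt at h
  push Not at h
  obtain ⟨z, hz, hsum, j, hj, hne⟩ := h
  let g : ℝ[X] := ∑ i ∈ Finset.range (p + 1), monomial i (z i)
  have hc : ∀ w, g.coeff w = if w ≤ p then z w else 0 := by
    intro w
    simp only [g, finsetSum_coeff, coeff_monomial]
    rw [Finset.sum_ite_eq' (Finset.range (p + 1)) w]
    simp only [Finset.mem_range, Nat.lt_succ_iff]
  have hg : g ∈ GP p := by
    refine ⟨fun w hw => ?_, fun w hw => ?_⟩
    · rw [hc, if_pos hw]; exact hz w hw
    · rw [hc, if_neg (by omega)]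
  refine ⟨g, hg, ?_, ?_⟩
  · intro h0
    have := hc j
    rw [h0, if_pos hj, coeff_zero] at this
    exact hne this.symm
  · rw [eval_eq_sum_GP hg, ← hsum]
    refine Finset.sum_congr rfl (fun w hw => ?_)
    rw [Finset.mem_range] at hw
    rw [hc, if_pos (by omega)]

/-- failure at `p` gives a large kernel -/
theorem defect {p : ℕ} (h : ¬ DirectAt p) (N : ℕ) :
    Module.finrank ℚ (SS (N + p)) + DD N ≤ DD (N + p) := by
  obtain ⟨g, hg, hg0, hg1⟩ := exists_rel h
  have key : DD N ≤ Module.finrank ℚ (LinearMap.ker (evN (N + p))) := by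
    rw [← finrank_GP]
    let m : GP N →ₗ[ℚ] LinearMap.ker (evN (N + p)) :=
      { toFun := fun f => ⟨⟨g * f, mul_mem_GP hg f.2⟩, by
          rw [LinearMap.mem_ker, evN_apply]
          simp only
          rw [eval_mul, hg1, zero_mul]⟩
        map_add' := by
          intro a b
          apply Subtype.ext
          apply Subtype.ext
          simp [mul_add]
        map_smul' := by
          intro c a
          apply Subtype.ext
          apply Subtype.ext
          simp }
    apply LinearMap.finrank_le_finrank_of_injective (f := m)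
    intro a b hab
    have h1 : g * (a : ℝ[X]) = g * (b : ℝ[X]) :=
      congrArg (fun x : LinearMap.ker (evN (N + p)) => ((x : GP (N + p)) : ℝ[X])) hab
    exact Subtype.ext (mul_left_cancel₀ hg0 h1)
  have := finrank_SS_add (N + p)
  omega

lemma defect_Ioc {p : ℕ} (h : ¬ DirectAt p) (M : ℕ) (hM : p ≤ M) :
    Module.finrank ℚ (SS M) ≤ ∑ w ∈ Finset.Ioc (M - p) M, Module.finrank ℚ (Z w) := by
  have h1 := defect h (M - p)
  rw [Nat.sub_add_cancel hM] at h1
  have h2 : DD M = DD (M - p) + ∑ w ∈ Finset.Ioc (M - p) M, Module.finrank ℚ (Z w) := by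
    unfold DD
    rw [← Finset.sum_union]
    · congr 1
      ext w
      simp only [Finset.mem_range, Finset.mem_union, Finset.mem_Ioc]
      omega
    · rw [Finset.disjoint_left]
      intro w hw
      simp only [Finset.mem_range, Finset.mem_Ioc] at hw ⊢
      omega
  omega

lemma SS_le_DD (N : ℕ) : Module.finrank ℚ (SS N) ≤ DD N := by
  have := finrank_SS_add N
  omega

lemma eq_of_direct {N : ℕ} (h : DirectAt N) : Module.finrank ℚ (SS N) = DD N := by
  have h1 := finrank_SS_add N
  have h2 : LinearMap.ker (evN N) = ⊥ := by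
    rw [LinearMap.ker_eq_bot']
    intro f hf
    rw [evN_apply, eval_eq_sum_GP f.2] at hf
    have h3 := h (fun w => (f : ℝ[X]).coeff w) (fun j hj => f.2.1 j hj) hf
    apply Subtype.ext
    ext w
    by_cases hw : w ≤ N
    · rw [h3 w hw]; simp
    · rw [f.2.2 w (by omega)]; simp
  rw [h2, finrank_bot, add_zero] at h1
  exact h1

lemma finrank_Z_le (w : ℕ) : Module.finrank ℚ (Z w) ≤ 2 ^ w := by
  classical
  have h : mzvSet w ⊆ Set.range (fun c : Composition w => zetaL c.blocks) := by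
    intro x hx
    rw [mem_mzvSet_iff] at hx
    obtain ⟨k, hk, hs, rfl⟩ := hx
    exact ⟨⟨k, fun {i} hi => hk.1 i hi, hs⟩, rfl⟩
  have h1 : Z w ≤ Submodule.span ℚ (Set.range (fun c : Composition w => zetaL c.blocks)) :=
    Submodule.span_mono h
  haveI : FiniteDimensional ℚ
      (Submodule.span ℚ (Set.range (fun c : Composition w => zetaL c.blocks))) :=
    FiniteDimensional.span_of_finite ℚ (Set.finite_range _)
  have h2 := Submodule.finrank_mono h1
  have h3 : (Set.range (fun c : Composition w => zetaL c.blocks)).finrank ℚ ≤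
      Fintype.card (Composition w) := finrank_range_le_card _
  rw [composition_card] at h3
  have h4 : 2 ^ (w - 1) ≤ 2 ^ w := Nat.pow_le_pow_right (by norm_num) (by omega)
  unfold Set.finrank at h3
  omega

lemma DD_le (N : ℕ) : DD N ≤ 2 ^ (N + 1) := by
  unfold DD
  calc ∑ w ∈ Finset.range (N + 1), Module.finrank ℚ (Z w)
      ≤ ∑ w ∈ Finset.range (N + 1), 2 ^ w := Finset.sum_le_sum (fun w _ => finrank_Z_le w)
    _ ≤ 2 ^ (N + 1) := by
      have := Nat.geomSum_eq (m := 2) (le_refl 2) (N + 1)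
      rw [this]
      simp

lemma finrank_Z0_pos : 1 ≤ Module.finrank ℚ (Z 0) := by
  rw [Nat.one_le_iff_ne_zero]
  intro h
  rw [Submodule.finrank_eq_zero] at h
  have := one_mem_Z
  rw [h, Submodule.mem_bot] at this
  exact one_ne_zero this

lemma DD_pos (N : ℕ) : 1 ≤ DD N := by
  unfold DD
  calc 1 ≤ Module.finrank ℚ (Z 0) := finrank_Z0_pos
    _ ≤ _ := Finset.single_le_sum (f := fun w => Module.finrank ℚ (Z w))
        (fun _ _ => Nat.zero_le _) (Finset.mem_range.2 (Nat.succ_pos N))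

open Filter Topology

theorem ratio_iff :
    (∀ p, DirectAt p) ↔
    Tendsto (fun N : ℕ => (Module.finrank ℚ (SS N) : ℝ) / (DD N : ℝ)) atTop (𝓝 1) := by
  constructor
  · intro h
    have : (fun N : ℕ => (Module.finrank ℚ (SS N) : ℝ) / (DD N : ℝ)) = fun _ => 1 := by
      funext N
      rw [eq_of_direct (h N)]
      have := DD_pos N
      apply div_self
      have h2 : (0 : ℝ) < (DD N : ℝ) := by exact_mod_cast this
      exact h2.ne'
    rw [this]
    exact tendsto_const_nhds
  · intro ht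
    by_contra hcon
    push Not at hcon
    obtain ⟨p, hp⟩ := hcon
    have hev : ∀ᶠ N : ℕ in atTop,
        1 - (1 / 2 : ℝ) ^ (p + 1) < (Module.finrank ℚ (SS N) : ℝ) / (DD N : ℝ) := by
      apply ht.eventually_const_lt
      have : (0 : ℝ) < (1 / 2) ^ (p + 1) := by positivity
      linarith
    obtain ⟨M0, hM0⟩ := eventually_atTop.1 hev
    -- growth
    have step : ∀ N, M0 ≤ N → 2 ^ (p + 1) * DD N ≤ DD (N + p) := by
      intro N hN
      have h1 := hM0 (N + p) (by omega)
      have h2 := defect hp N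
      have h3 : (0 : ℝ) < (DD (N + p) : ℝ) := by exact_mod_cast DD_pos (N + p)
      rw [lt_div_iff₀ h3] at h1
      have h4 : (Module.finrank ℚ (SS (N + p)) : ℝ) + (DD N : ℝ) ≤ (DD (N + p) : ℝ) := by
        exact_mod_cast h2
      have h5 : (DD N : ℝ) ≤ (1 / 2 : ℝ) ^ (p + 1) * (DD (N + p) : ℝ) := by nlinarith
      have h6 : (2 : ℝ) ^ (p + 1) * (DD N : ℝ) ≤ (DD (N + p) : ℝ) := by
        calc (2 : ℝ) ^ (p + 1) * (DD N : ℝ)
            ≤ (2 : ℝ) ^ (p + 1) * ((1 / 2 : ℝ) ^ (p + 1) * (DD (N + p) : ℝ)) := by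
              apply mul_le_mul_of_nonneg_left h5 (by positivity)
          _ = (DD (N + p) : ℝ) := by
              rw [← mul_assoc, ← mul_pow]; norm_num
      exact_mod_cast h6
    have hind : ∀ k : ℕ, 2 ^ ((p + 1) * k) * DD M0 ≤ DD (M0 + k * p) := by
      intro k
      induction k with
      | zero => simp
      | succ k ih =>
        have h1 := step (M0 + k * p) (by omega)
        have h2 : M0 + k * p + p = M0 + (k + 1) * p := by ring
        rw [h2] at h1
        calc 2 ^ ((p + 1) * (k + 1)) * DD M0 = 2 ^ (p + 1) * (2 ^ ((p + 1) * k) * DD M0) := by ring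
          _ ≤ 2 ^ (p + 1) * DD (M0 + k * p) := Nat.mul_le_mul_left _ ih
          _ ≤ _ := h1
    have h1 := hind (M0 + 2)
    have h2 := DD_le (M0 + (M0 + 2) * p)
    have h3 := DD_pos M0
    have h4 : 2 ^ ((p + 1) * (M0 + 2)) ≤ 2 ^ (M0 + (M0 + 2) * p + 1) := by
      calc 2 ^ ((p + 1) * (M0 + 2)) = 2 ^ ((p + 1) * (M0 + 2)) * 1 := by ring
        _ ≤ 2 ^ ((p + 1) * (M0 + 2)) * DD M0 := Nat.mul_le_mul_left _ h3
        _ ≤ _ := h1
        _ ≤ _ := h2
    have h5 := (Nat.pow_le_pow_iff_right (by norm_num : 1 < 2)).1 h4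
    have : (p + 1) * (M0 + 2) = M0 + (M0 + 2) * p + 2 := by ring
    omega

end Pool.Agent.Work.MP_4d52ff_nt
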