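import Pool.Agent.Work.MP_4d52ff_nt.Field

set_option autoImplicit false

namespace Pool.Agent.Work.MP_4d52ff_nt

open Finset

/-- a transcendental element can be rescaled by an automorphism of `ℂ` fixing the base field -/
theorem exists_scaling {K : Type} [Field K] [Algebra K ℂ] (x : ℂ) (hx : Transcendental K x)
    (c : K) (hc : c ≠ 0) :
    ∃ σ : ℂ ≃+* ℂ, (∀ a : K, σ (algebraMap K ℂ a) = algebraMap K ℂ a) ∧
      σ x = algebraMap K ℂ c * x := by
  have h1 : AlgebraicIndepOn K id ({x} : Set ℂ) := by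
    have : AlgebraicIndependent K (fun i : ({x} : Set ℂ) => (i : ℂ)) := by
      rw [algebraicIndependent_unique_type_iff]
      exact hx
    exact this
  obtain ⟨t, hst, ht⟩ := exists_isTranscendenceBasis_superset h1
  have hxt : x ∈ t := hst rfl
  classical
  let φ : MvPolynomial t K →ₐ[K] MvPolynomial t K :=
    MvPolynomial.aeval (fun i : t => if i = ⟨x, hxt⟩ then MvPolynomial.C c * MvPolynomial.X i
      else MvPolynomial.X i)
  let ψ : MvPolynomial t K →ₐ[K] MvPolynomial t K :=
    MvPolynomial.aeval (fun i : t => if i = ⟨x, hxt⟩ then MvPolynomial.C c⁻¹ * MvPolynomial.X i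
      else MvPolynomial.X i)
  let e : MvPolynomial t K ≃ₐ[K] MvPolynomial t K := AlgEquiv.ofAlgHom φ ψ
    (by
      ext i
      simp only [φ, ψ, AlgHom.comp_apply, MvPolynomial.aeval_X, AlgHom.id_apply]
      split_ifs with h
      · rw [map_mul, MvPolynomial.aeval_X, if_pos h, ← MvPolynomial.algebraMap_eq,
          AlgHom.commutes, ← mul_assoc, ← map_mul, inv_mul_cancel₀ hc, map_one, one_mul]
      · rw [MvPolynomial.aeval_X, if_neg h])
    (by
      ext i
      simp only [φ, ψ, AlgHom.comp_apply, MvPolynomial.aeval_X, AlgHom.id_apply]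
      split_ifs with h
      · rw [map_mul, MvPolynomial.aeval_X, if_pos h, ← MvPolynomial.algebraMap_eq,
          AlgHom.commutes, ← mul_assoc, ← map_mul, mul_inv_cancel₀ hc, map_one, one_mul]
      · rw [MvPolynomial.aeval_X, if_neg h])
  let E : Algebra.adjoin K (Set.range ((↑) : t → ℂ)) ≃ₐ[K]
      Algebra.adjoin K (Set.range ((↑) : t → ℂ)) :=
    (ht.1.aevalEquiv.symm.trans e).trans ht.1.aevalEquiv
  let _ := IsAlgClosed.isAlgClosure_of_transcendence_basis _ ht
  refine ⟨IsAlgClosure.equivOfEquiv ℂ ℂ E.toRingEquiv, ?_, ?_⟩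
  · intro a
    have h2 := IsAlgClosure.equivOfEquiv_algebraMap ℂ ℂ E.toRingEquiv
      (algebraMap K (Algebra.adjoin K (Set.range ((↑) : t → ℂ))) a)
    rw [← IsScalarTower.algebraMap_apply] at h2
    rw [h2]
    have h3 : E.toRingEquiv (algebraMap K (Algebra.adjoin K (Set.range ((↑) : t → ℂ))) a) =
        algebraMap K (Algebra.adjoin K (Set.range ((↑) : t → ℂ))) a := E.commutes a
    rw [h3, ← IsScalarTower.algebraMap_apply]
  · let X : Algebra.adjoin K (Set.range ((↑) : t → ℂ)) :=
      ht.1.aevalEquiv (MvPolynomial.X ⟨x, hxt⟩)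
    have hX : algebraMap (Algebra.adjoin K (Set.range ((↑) : t → ℂ))) ℂ X = x := by
      simp [X]
    have h2 := IsAlgClosure.equivOfEquiv_algebraMap ℂ ℂ E.toRingEquiv X
    rw [hX] at h2
    rw [h2]
    have h3 : E.toRingEquiv X =
        algebraMap K (Algebra.adjoin K (Set.range ((↑) : t → ℂ))) c * X := by
      change E X = _
      simp only [E, X, e, AlgEquiv.trans_apply, AlgEquiv.symm_apply_apply]
      rw [AlgEquiv.ofAlgHom_apply]
      simp only [φ, MvPolynomial.aeval_X, if_true]
      rw [map_mul, ← MvPolynomial.algebraMap_eq, AlgEquiv.commutes]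
    rw [h3, map_mul, hX, ← IsScalarTower.algebraMap_apply]

lemma transcendental_v_of_direct (h : Direct) : Transcendental K0 (v : ℂ) := by
  have h1 : Transcendental K0 Real.pi := direct_iff_transcendental.1 h
  have h2 : Transcendental K0 v := fun h3 => h1 (pi_alg_iff.2 h3)
  have h3 : (v : ℂ) = algebraMap ℝ ℂ v := rfl
  rw [h3, transcendental_algebraMap_iff (algebraMap ℝ ℂ).injective]
  exact h2

theorem exists_aut_of_direct (h : Direct) (q : ℚ) (hq : q ≠ 0) :
    ∃ σ : ℂ ≃+* ℂ, ∀ w : ℕ, ∀ x ∈ Z w, σ (x : ℂ) = (q : ℂ) ^ w * x := by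
  obtain ⟨σ, hσ, hσv⟩ := exists_scaling (K := K0) (v : ℂ) (transcendental_v_of_direct h)
    (algebraMap ℚ K0 q) (by simpa using hq)
  refine ⟨σ, fun w x hx => ?_⟩
  have h1 := hσ ⟨_, div_v_pow_mem hx⟩
  have h2 : algebraMap K0 ℂ ⟨_, div_v_pow_mem hx⟩ = ((x / v ^ w : ℝ) : ℂ) := rfl
  rw [h2] at h1
  have h3 : (x : ℂ) = ((x / v ^ w : ℝ) : ℂ) * (v : ℂ) ^ w := by
    rw [← Complex.ofReal_pow, ← Complex.ofReal_mul]
    congr 1
    have := (pow_pos v_pos w).ne'
    field_simp
  have h4 : algebraMap K0 ℂ (algebraMap ℚ K0 q) = (q : ℂ) := by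
    rw [← IsScalarTower.algebraMap_apply]; rfl
  conv_lhs => rw [h3, map_mul, map_pow, h1, hσv, h4]
  conv_rhs => rw [h3]
  ring

theorem direct_of_aut (q : ℚ) (h0 : q ≠ 0) (h1 : q ≠ 1) (h2 : q ≠ -1) (σ : ℂ ≃+* ℂ)
    (hσ : ∀ w : ℕ, ∀ x ∈ mzvSet w, σ (x : ℂ) = (q : ℂ) ^ w * x) : Direct := by
  have hZ : ∀ w : ℕ, ∀ x ∈ Z w, σ (x : ℂ) = (q : ℂ) ^ w * x := by
    intro w x hx
    unfold Z at hx
    induction hx using Submodule.span_induction with
    | mem x hx => exact hσ w x hx
    | zero => simp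
    | add x y _ _ hx hy => push_cast; rw [map_add, hx, hy]; ring
    | smul c x _ hx =>
      rw [Rat.smul_def]; push_cast; rw [map_mul, hx, map_ratCast]; ring
  intro p z hz hsum
  have key : ∀ n : ℕ, ∑ j ∈ Finset.range (p + 1), (((q : ℂ) ^ n) ^ j * (z j : ℂ)) = 0 := by
    intro n
    induction n with
    | zero =>
      simp only [pow_zero, one_pow, one_mul]
      rw [← Complex.ofReal_sum, hsum]; rfl
    | succ n ih =>
      have h3 := congrArg σ ih
      rw [map_sum, map_zero] at h3
      rw [← h3]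
      refine Finset.sum_congr rfl (fun j hj => ?_)
      rw [Finset.mem_range] at hj
      rw [map_mul, hZ j _ (hz j (by omega)), map_pow, map_pow, map_ratCast]
      ring
  have hinj : Function.Injective (fun n : ℕ => (q : ℂ) ^ n) := by
    intro a b hab
    simp only at hab
    have h3 : q ^ a = q ^ b := by exact_mod_cast hab
    have h4 : |q| ^ a = |q| ^ b := by rw [← abs_pow, ← abs_pow, h3]
    have h5 : 0 < |q| := abs_pos.mpr h0
    have h6 : |q| ≠ 1 := by
      intro h
      rcases (abs_eq (by norm_num : (0 : ℚ) ≤ 1)).mp h with h | h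
      · exact h1 h
      · exact h2 h
    exact pow_right_injective₀ h5 h6 h4
  let P : Polynomial ℂ := ∑ j ∈ Finset.range (p + 1), Polynomial.monomial j (z j : ℂ)
  have hroot : ∀ n : ℕ, P.eval ((q : ℂ) ^ n) = 0 := by
    intro n
    rw [← key n]
    simp only [P, Polynomial.eval_finsetSum, Polynomial.eval_monomial]
    exact Finset.sum_congr rfl (fun j _ => by ring)
  have hP : P = 0 := by
    apply Polynomial.eq_zero_of_infinite_isRoot
    refine Set.Infinite.mono ?_ (Set.infinite_range_of_injective hinj)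
    rintro _ ⟨n, rfl⟩
    exact hroot n
  intro j hj
  have h7 := congrArg (fun P => Polynomial.coeff P j) hP
  simp only [P, Polynomial.finsetSum_coeff, Polynomial.coeff_monomial, Polynomial.coeff_zero]
    at h7
  rw [Finset.sum_ite_eq' (Finset.range (p + 1)) j, if_pos (by simp; omega)] at h7
  exact_mod_cast h7

end Pool.Agent.Work.MP_4d52ff_nt
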