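import Mathlib

set_option autoImplicit false

namespace Pool.Agent.Work.MP_4d52ff_nt

open Polynomial

section Subs

variable {K L : Type*} [AddCommMonoid K] [AddCommMonoid L]

/-- multiset of subset sums -/
def subs (s : Multiset K) : Multiset K := s.powerset.map Multiset.sum

lemma subs_zero : subs (0 : Multiset K) = {0} := by simp [subs]

lemma subs_cons (a : K) (s : Multiset K) :
    subs (a ::ₘ s) = subs s + (subs s).map (fun x => a + x) := by
  simp [subs, Multiset.powerset_cons, Multiset.map_add, Multiset.map_map]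

lemma subs_map (s : Multiset K) (f : K →+ L) : subs (s.map f) = (subs s).map f := by
  induction s using Multiset.induction_on with
  | empty => simp [subs_zero]
  | cons a s ih =>
    rw [Multiset.map_cons, subs_cons, subs_cons, ih]
    simp [Multiset.map_add, Multiset.map_map]

end Subs

lemma prod_one_add_exp (s : Multiset ℂ) :
    (s.map (fun x => 1 + Complex.exp x)).prod = ((subs s).map Complex.exp).sum := by
  induction s using Multiset.induction_on with
  | empty => simp [subs_zero]
  | cons a s ih =>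
    rw [Multiset.map_cons, Multiset.prod_cons, ih, subs_cons, Multiset.map_add, Multiset.sum_add,
      Multiset.map_map]
    simp only [Function.comp_def, Complex.exp_add]
    rw [Multiset.sum_map_mul_left]
    ring

section Galois

variable {K : Type*} [Field K] [Algebra ℚ K] [IsGalois ℚ K] [FiniteDimensional ℚ K]

lemma exists_poly_of_invariant (M : Multiset K) (hM : ∀ σ : Gal(K/ℚ), M.map σ = M) :
    ∃ f : ℚ[X], f.map (algebraMap ℚ K) = (M.map (fun a => X - C a)).prod := by
  rw [← Polynomial.mem_lifts, Polynomial.lifts_iff_coeff_lifts]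
  intro n
  rw [IsGalois.mem_range_algebraMap_iff_fixed]
  intro σ
  have h : ((M.map (fun a => X - C a)).prod).map (σ : K →+* K) =
      (M.map (fun a => X - C a)).prod := by
    rw [Polynomial.map_multiset_prod, Multiset.map_map]
    conv_rhs => rw [← hM σ, Multiset.map_map]
    congr 1
    apply Multiset.map_congr rfl
    intro a _
    simp
  have h2 := congrArg (fun P => Polynomial.coeff P n) h
  simp only [Polynomial.coeff_map] at h2
  exact h2

lemma sum_rat_of_invariant (M : Multiset K) (hM : ∀ σ : Gal(K/ℚ), M.map σ = M) (g : ℤ[X]) :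
    ∃ q : ℚ, algebraMap ℚ K q = (M.map (fun a => aeval a g)).sum := by
  have : (M.map (fun a => aeval a g)).sum ∈ Set.range (algebraMap ℚ K) := by
    rw [IsGalois.mem_range_algebraMap_iff_fixed]
    intro σ
    rw [map_multiset_sum, Multiset.map_map]
    conv_rhs => rw [← hM σ, Multiset.map_map]
    congr 1
    apply Multiset.map_congr rfl
    intro a _
    simp only [Function.comp_def]
    have h3 : σ (aeval a g) = aeval (σ a) g := by
      have := Polynomial.aeval_algHom_apply ((σ : K →ₐ[ℚ] K).restrictScalars ℤ) a g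
      exact this.symm
    exact h3
  exact this

end Galois

/-- the rational sum is integral -/
lemma isIntegral_scaled (F g : ℤ[X]) (N : ℕ) (hN : g.natDegree ≤ N) (r : ℂ)
    (hr : aeval r F = 0) : IsIntegral ℤ ((F.leadingCoeff : ℂ) ^ N * aeval r g) := by
  have h1 : IsIntegral ℤ ((F.leadingCoeff : ℂ) * r) := by
    have := isIntegral_leadingCoeff_smul F r hr
    rwa [zsmul_eq_mul] at this
  rw [Polynomial.aeval_eq_sum_range, Finset.mul_sum]
  apply IsIntegral.sum
  intro i hi
  rw [Finset.mem_range] at hi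
  have e : (F.leadingCoeff : ℂ) ^ N * (g.coeff i • r ^ i) =
      ((g.coeff i : ℂ) * (F.leadingCoeff : ℂ) ^ (N - i)) * ((F.leadingCoeff : ℂ) * r) ^ i := by
    rw [zsmul_eq_mul, mul_pow]
    have : (F.leadingCoeff : ℂ) ^ N = (F.leadingCoeff : ℂ) ^ (N - i) * (F.leadingCoeff : ℂ) ^ i := by
      rw [← pow_add]; congr 1; omega
    rw [this]; ring
  rw [e]
  apply IsIntegral.mul _ (h1.pow i)
  have : ((g.coeff i : ℂ) * (F.leadingCoeff : ℂ) ^ (N - i)) =
      algebraMap ℤ ℂ (g.coeff i * F.leadingCoeff ^ (N - i)) := by simp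
  rw [this]
  exact isIntegral_algebraMap

lemma tendsto_aux (c : ℝ) (C : ℝ) :
    Filter.Tendsto (fun p : ℕ => C * (c ^ p / ((p - 1).factorial : ℝ))) Filter.atTop (nhds 0) := by
  have h := FloorSemiring.tendsto_pow_div_factorial_atTop (K := ℝ) c
  have h2 : Filter.Tendsto (fun p : ℕ => C * c * (c ^ (p - 1) / ((p - 1).factorial : ℝ)))
      Filter.atTop (nhds (C * c * 0)) :=
    (h.comp (Filter.tendsto_sub_atTop_nat 1)).const_mul _
  rw [mul_zero] at h2
  refine h2.congr' ?_
  filter_upwards [Filter.eventually_ge_atTop 1] with p hp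
  obtain ⟨k, rfl⟩ : ∃ k, p = k + 1 := ⟨p - 1, by omega⟩
  simp only [Nat.add_sub_cancel, pow_succ]
  ring

theorem no_relation (F : ℤ[X]) (hF : F.eval 0 ≠ 0) (q : ℕ) (hq : 0 < q)
    (hsum : ((F.aroots ℂ).map Complex.exp).sum = -(q : ℂ))
    (hrat : ∀ g : ℤ[X], ∃ x : ℚ, (x : ℂ) = ((F.aroots ℂ).map (fun a => aeval a g)).sum) :
    False := by
  obtain ⟨c, hc⟩ := LindemannWeierstrass.exp_polynomial_approx F hF
  set a := F.leadingCoeff with ha
  have hF0 : F ≠ 0 := by rintro rfl; simp at hF
  have ha0 : a ≠ 0 := leadingCoeff_ne_zero.mpr hF0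
  set D := F.natDegree with hD
  set R := F.aroots ℂ with hR
  -- bound tends to zero
  have ht := tendsto_aux (|(a : ℝ)| ^ D * c) (Multiset.card R)
  have hev : ∀ᶠ p : ℕ in Filter.atTop,
      (Multiset.card R : ℝ) * ((|(a : ℝ)| ^ D * c) ^ p / ((p - 1).factorial : ℝ)) < 1 :=
    ht.eventually_lt_const (by norm_num)
  obtain ⟨P₀, hP₀⟩ := Filter.eventually_atTop.mp hev
  obtain ⟨p, hp, hprime⟩ := Nat.exists_infinite_primes
    (P₀ + (F.eval 0).natAbs + a.natAbs + q + 1)
  obtain ⟨n, hn, g, hg, happ⟩ := hc p (by omega) hprime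
  obtain ⟨x, hx⟩ := hrat g
  -- the integer
  have hint : ∃ m : ℤ, (m : ℂ) = (a : ℂ) ^ (p * D) * (R.map (fun r => aeval r g)).sum := by
    have h1 : IsIntegral ℤ ((a : ℂ) ^ (p * D) * (R.map (fun r => aeval r g)).sum) := by
      rw [← Multiset.sum_map_mul_left]
      apply IsIntegral.multiset_sum
      intro y hy
      rw [Multiset.mem_map] at hy
      obtain ⟨r, hr, rfl⟩ := hy
      apply isIntegral_scaled F g (p * D) (by omega)
      rw [hR, Polynomial.mem_aroots] at hr
      exact hr.2
    rw [← hx] at h1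
    have h2 : ((a : ℂ) ^ (p * D) * (x : ℂ)) = algebraMap ℚ ℂ ((a : ℚ) ^ (p * D) * x) := by
      simp
    rw [h2, isIntegral_algebraMap_iff (algebraMap ℚ ℂ).injective] at h1
    obtain ⟨m, hm⟩ := IsIntegrallyClosed.isIntegral_iff.mp h1
    refine ⟨m, ?_⟩
    rw [← hx, h2, ← hm]
    simp
  obtain ⟨m, hm⟩ := hint
  -- the key estimate
  have hest : ‖(n : ℂ) * q + (p : ℂ) * (R.map (fun r => aeval r g)).sum‖ ≤
      Multiset.card R * (c ^ p / ((p - 1).factorial : ℝ)) := by
    have e : (n : ℂ) * q + (p : ℂ) * (R.map (fun r => aeval r g)).sum =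
        -(R.map (fun r => n • Complex.exp r - p • aeval r g)).sum := by
      rw [Multiset.sum_map_sub]
      simp only [zsmul_eq_mul, nsmul_eq_mul]
      rw [Multiset.sum_map_mul_left, Multiset.sum_map_mul_left, hsum]
      ring
    rw [e, norm_neg]
    calc ‖(R.map (fun r => n • Complex.exp r - p • aeval r g)).sum‖
        ≤ ((R.map (fun r => n • Complex.exp r - p • aeval r g)).map norm).sum :=
          norm_multiset_sum_le _
      _ ≤ Multiset.card ((R.map (fun r => n • Complex.exp r - p • aeval r g)).map norm) •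
            (c ^ p / ((p - 1).factorial : ℝ)) := by
          apply Multiset.sum_le_card_nsmul
          intro y hy
          simp only [Multiset.map_map, Multiset.mem_map, Function.comp_def] at hy
          obtain ⟨r, hr, rfl⟩ := hy
          exact happ hr
      _ = _ := by simp
  have hlt : ‖((a ^ (p * D) * n * q + p * m : ℤ) : ℂ)‖ < 1 := by
    have e : ((a ^ (p * D) * n * q + p * m : ℤ) : ℂ) =
        (a : ℂ) ^ (p * D) * ((n : ℂ) * q + (p : ℂ) * (R.map (fun r => aeval r g)).sum) := by
      push_cast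
      rw [hm]; ring
    rw [e, norm_mul, norm_pow]
    have h3 : ‖(a : ℂ)‖ = |(a : ℝ)| := by
      rw [← Complex.ofReal_intCast, Complex.norm_real]; rfl
    rw [h3]
    calc |(a : ℝ)| ^ (p * D) * ‖(n : ℂ) * q + (p : ℂ) * (R.map (fun r => aeval r g)).sum‖
        ≤ |(a : ℝ)| ^ (p * D) * (Multiset.card R * (c ^ p / ((p - 1).factorial : ℝ))) := by
          gcongr
      _ = (Multiset.card R : ℝ) * ((|(a : ℝ)| ^ D * c) ^ p / ((p - 1).factorial : ℝ)) := by
          rw [mul_pow, ← pow_mul, mul_comm D p]; ring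
      _ < 1 := hP₀ p (by omega)
  have hzero : a ^ (p * D) * n * q + p * m = 0 := by
    have h4 : |((a ^ (p * D) * n * q + p * m : ℤ) : ℝ)| < 1 := by
      have : ‖((a ^ (p * D) * n * q + p * m : ℤ) : ℂ)‖ =
          |((a ^ (p * D) * n * q + p * m : ℤ) : ℝ)| := by
        rw [← Complex.ofReal_intCast, Complex.norm_real]; rfl
      rw [this] at hlt
      exact hlt
    have h5 : |a ^ (p * D) * n * q + p * m| < 1 := by exact_mod_cast h4
    exact Int.abs_lt_one_iff.mp h5
  have hdvd : (p : ℤ) ∣ a ^ (p * D) * n * q := by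
    refine ⟨-m, ?_⟩
    linarith
  have hpp : Prime (p : ℤ) := Nat.prime_iff_prime_int.mp hprime
  rcases hpp.dvd_or_dvd hdvd with h6 | h6
  · rcases hpp.dvd_or_dvd h6 with h7 | h7
    · have h8 := hpp.dvd_of_dvd_pow h7
      have h9 := Int.natAbs_dvd_natAbs.mpr h8
      have h10 := Nat.le_of_dvd (Int.natAbs_pos.mpr ha0) h9
      simp only [Int.natAbs_natCast] at h10
      omega
    · exact hn h7
  · have h7 : p ∣ q := by exact_mod_cast h6
    have := Nat.le_of_dvd hq h7
    omega

theorem aux_main (f : ℚ[X]) (hf0 : f ≠ 0) (θ : ℂ) (hθ : θ = (Real.pi : ℂ) * Complex.I)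
    (hfθ : aeval θ f = 0) (K : Type) [Field K] [Algebra ℚ K] [IsSplittingField ℚ K f] :
    False := by
  have : FiniteDimensional ℚ K := IsSplittingField.finiteDimensional K f
  have : Normal ℚ K := Normal.of_isSplittingField f
  have : IsGalois ℚ K := ⟨⟩
  have hsp : (f.map (algebraMap ℚ K)).Splits := IsSplittingField.splits K f
  let ι : K →ₐ[ℚ] ℂ := IsAlgClosed.lift
  set s : Multiset K := f.aroots K with hs
  have hsι : s.map ι = f.aroots ℂ := by
    rw [hs, aroots, aroots]
    have h1 := hsp.roots_map (ι : K →+* ℂ)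
    rw [Polynomial.map_map] at h1
    have h2 : (ι : K →+* ℂ).comp (algebraMap ℚ K) = algebraMap ℚ ℂ := ι.comp_algebraMap
    rw [h2] at h1
    exact h1.symm
  have hsσ : ∀ σ : Gal(K/ℚ), s.map σ = s := by
    intro σ
    rw [hs, aroots]
    have h1 := hsp.roots_map (σ : K →+* K)
    rw [Polynomial.map_map] at h1
    have h2 : (σ : K →+* K).comp (algebraMap ℚ K) = algebraMap ℚ K := by
      ext; simp
    rw [h2] at h1
    exact h1.symm
  have hsub : ∀ σ : Gal(K/ℚ), (subs s).map σ = subs s := by
    intro σ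
    have h1 := subs_map s ((σ : K →+* K) : K →+ K)
    have h2 : s.map ((σ : K →+* K) : K →+ K) = s := hsσ σ
    rw [h2] at h1
    exact h1.symm
  classical
  set M : Multiset K := (subs s).filter (fun x => x ≠ 0) with hM
  have hMσ : ∀ σ : Gal(K/ℚ), M.map σ = M := by
    intro σ
    rw [hM]
    conv_rhs => rw [← hsub σ]
    rw [Multiset.filter_map]
    congr 1
    apply Multiset.filter_congr
    intro x _
    simp
  -- rational polynomial
  obtain ⟨g, hg⟩ := exists_poly_of_invariant M hMσ
  obtain ⟨b, hb, hbg⟩ := IsLocalization.integerNormalization_spec (nonZeroDivisors ℤ) g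
  set F := IsLocalization.integerNormalization (nonZeroDivisors ℤ) g with hFdef
  have hb0 : b ≠ 0 := nonZeroDivisors.ne_zero hb
  have hbQ : (b : ℚ) ≠ 0 := by exact_mod_cast hb0
  have hbg' : F.map (algebraMap ℤ ℚ) = C (b : ℚ) * g := by
    rw [hbg]
    ext n
    simp
  have hMι : F.aroots ℂ = M.map ι := by
    have h1 : F.map (algebraMap ℤ ℂ) = (C (b : ℚ) * g).map (algebraMap ℚ ℂ) := by
      rw [← hbg', Polynomial.map_map]
      rfl
    rw [aroots, h1, Polynomial.map_mul, Polynomial.map_C, Polynomial.roots_C_mul _ (by simpa using hb0)]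
    have h2 : g.map (algebraMap ℚ ℂ) = ((g.map (algebraMap ℚ K)).map (ι : K →+* ℂ)) := by
      rw [Polynomial.map_map]
      have h2 : (ι : K →+* ℂ).comp (algebraMap ℚ K) = algebraMap ℚ ℂ := ι.comp_algebraMap
      rw [h2]
    rw [h2, hg, Polynomial.map_multiset_prod, Multiset.map_map]
    have h3 : (M.map ((Polynomial.map (ι : K →+* ℂ)) ∘ fun a => X - C a)) =
        (M.map ι).map (fun a => X - C a) := by
      rw [Multiset.map_map]
      apply Multiset.map_congr rfl
      intro a _
      simp
    rw [h3, Polynomial.roots_multiset_prod_X_sub_C]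
  have hF0 : F.eval 0 ≠ 0 := by
    intro h0
    have h1 : (0 : ℂ) ∈ F.aroots ℂ := by
      rw [Polynomial.mem_aroots]
      refine ⟨?_, ?_⟩
      · rintro h2
        rw [h2] at hbg'
        have hg0 : g ≠ 0 := by
          rintro rfl
          rw [Polynomial.map_zero] at hg
          have : ((M.map (fun a => X - C a)).prod).Monic :=
            Polynomial.monic_multiset_prod_of_monic _ _ (fun a _ => Polynomial.monic_X_sub_C a)
          rw [← hg] at this
          exact Polynomial.not_monic_zero this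
        simp only [Polynomial.map_zero, zero_eq_mul, Polynomial.C_eq_zero] at hbg'
        rcases hbg' with h3 | h3
        · exact hbQ h3
        · exact hg0 h3
      · rw [Polynomial.aeval_def, Polynomial.eval₂_at_zero]
        rw [← Polynomial.coeff_zero_eq_eval_zero] at h0
        rw [h0]; simp
    rw [hMι, Multiset.mem_map] at h1
    obtain ⟨x, hx, hx0⟩ := h1
    rw [hM, Multiset.mem_filter] at hx
    exact hx.2 ((map_eq_zero_iff ι ι.injective).mp hx0)
  -- the exponential relation
  have hprod : ((s.map ι).map (fun x => 1 + Complex.exp x)).prod = 0 := by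
    apply Multiset.prod_eq_zero
    rw [Multiset.mem_map]
    refine ⟨θ, ?_, ?_⟩
    · rw [hsι, Polynomial.mem_aroots]
      exact ⟨hf0, hfθ⟩
    · rw [hθ, Complex.exp_pi_mul_I]; ring
  rw [prod_one_add_exp] at hprod
  have h4 : subs (s.map ι) = (subs s).map ι := subs_map s ((ι : K →+* ℂ) : K →+ ℂ)
  rw [h4] at hprod
  set q := Multiset.card ((subs s).filter (fun x => ¬ x ≠ 0)) with hq
  have hq0 : 0 < q := by
    rw [hq, Multiset.card_pos_iff_exists_mem]
    refine ⟨0, ?_⟩
    rw [Multiset.mem_filter]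
    refine ⟨?_, by simp⟩
    rw [subs, Multiset.mem_map]
    exact ⟨0, by simp, by simp⟩
  have hsum : ((F.aroots ℂ).map Complex.exp).sum = -(q : ℂ) := by
    rw [hMι]
    have h5 : subs s = M + (subs s).filter (fun x => ¬ x ≠ 0) :=
      (Multiset.filter_add_not (fun x => x ≠ 0) (subs s)).symm
    rw [h5, Multiset.map_add, Multiset.map_add, Multiset.sum_add] at hprod
    have h6 : ((((subs s).filter (fun x => ¬ x ≠ 0)).map ι).map Complex.exp).sum = (q : ℂ) := by
      rw [Multiset.map_map]
      have : ∀ x ∈ (subs s).filter (fun x => ¬ x ≠ 0), (Complex.exp ∘ ι) x = 1 := by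
        intro x hx
        rw [Multiset.mem_filter, not_not] at hx
        simp [hx.2]
      rw [Multiset.map_congr rfl this]
      simp [hq]
    rw [h6] at hprod
    linear_combination hprod
  refine no_relation F hF0 q hq0 hsum (fun g' => ?_)
  obtain ⟨x, hx⟩ := sum_rat_of_invariant M hMσ g'
  refine ⟨x, ?_⟩
  rw [hMι, Multiset.map_map]
  have h7 := congrArg ι hx
  rw [map_multiset_sum, Multiset.map_map, AlgHom.commutes] at h7
  have h8 : (algebraMap ℚ ℂ) x = (x : ℂ) := rfl
  rw [← h8, h7]
  congr 1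
  apply Multiset.map_congr rfl
  intro a _
  simp only [Function.comp_def]
  exact (Polynomial.aeval_algHom_apply (ι.restrictScalars ℤ) a g').symm

theorem not_isAlgebraic_pi_I : ¬ IsAlgebraic ℚ ((Real.pi : ℂ) * Complex.I) := by
  intro halg
  have hint : IsIntegral ℚ ((Real.pi : ℂ) * Complex.I) := halg.isIntegral
  exact @aux_main _ (minpoly.ne_zero hint) _ rfl (minpoly.aeval _ _) _ _ _
    (Polynomial.IsSplittingField.splittingField (minpoly ℚ ((Real.pi : ℂ) * Complex.I)))

/-- Lindemann: `π` is transcendental over `ℚ`. -/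
theorem transcendental_pi : Transcendental ℚ Real.pi := by
  intro h
  apply not_isAlgebraic_pi_I
  have h1 : IsAlgebraic ℚ (Real.pi : ℂ) := by
    have := h.algebraMap (A := ℂ)
    exact this
  have h2 : IsAlgebraic ℚ Complex.I := by
    refine ⟨X ^ 2 + 1, ?_, by simp⟩
    intro h0
    have := congrArg (fun P => Polynomial.coeff P 0) h0
    simp at this
  exact h1.mul h2

end Pool.Agent.Work.MP_4d52ff_nt
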