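import Pool.Agent.Work.MP_4d52ff_nt.Field
import Pool.Agent.Work.MP_4d52ff_nt.Lindemann

set_option autoImplicit false

namespace Pool.Agent.Work.MP_4d52ff_nt

open Finset

lemma mzvSet_finite (w : ℕ) : (mzvSet w).Finite := by
  have h : mzvSet w ⊆ Set.range (fun c : Composition w => zetaL c.blocks) := by
    intro x hx
    rw [mem_mzvSet_iff] at hx
    obtain ⟨k, hk, hs, rfl⟩ := hx
    exact ⟨⟨k, fun {i} hi => hk.1 i hi, hs⟩, rfl⟩
  exact (Set.finite_range _).subset h

instance (w : ℕ) : FiniteDimensional ℚ (Z w) :=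
  FiniteDimensional.span_of_finite ℚ (mzvSet_finite w)

/-- a nonhomogeneous relation forces some component to be a transcendental multiple of `π ^ j` -/
lemma exists_transcendental_component (p : ℕ) (z : ℕ → ℝ)
    (hsum : ∑ j ∈ Finset.range (p + 1), z j = 0) (hne : ∃ j ≤ p, z j ≠ 0) :
    ∃ j ≤ p, z j ≠ 0 ∧ Transcendental ℚ (z j / Real.pi ^ j) := by
  by_contra hcon
  push Not at hcon
  have halg : ∀ i ≤ p, IsAlgebraic ℚ (z i / Real.pi ^ i) := by
    intro i hi
    by_cases h : z i = 0
    · rw [h, zero_div]; exact isAlgebraic_zero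
    · have := hcon i hi h
      unfold Transcendental at this
      exact not_not.mp this
  classical
  let a : ℕ → algebraicClosure ℚ ℝ := fun i =>
    if h : i ≤ p then ⟨z i / Real.pi ^ i, (mem_algebraicClosure_iff).2 (halg i h)⟩ else 0
  have ha : ∀ i (h : i ≤ p), ((a i : algebraicClosure ℚ ℝ) : ℝ) = z i / Real.pi ^ i := by
    intro i h
    simp [a, h]
  let P : Polynomial (algebraicClosure ℚ ℝ) :=
    ∑ i ∈ Finset.range (p + 1), Polynomial.monomial i (a i)
  have hP : Polynomial.aeval Real.pi P = 0 := by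
    simp only [P, map_sum]
    rw [← hsum]
    refine Finset.sum_congr rfl (fun i hi => ?_)
    rw [Finset.mem_range] at hi
    rw [Polynomial.aeval_monomial]
    change ((a i : algebraicClosure ℚ ℝ) : ℝ) * Real.pi ^ i = z i
    rw [ha i (by omega)]
    have h3 : Real.pi ^ i ≠ 0 := pow_ne_zero _ Real.pi_pos.ne'
    field_simp
  have hP0 : P ≠ 0 := by
    intro h0
    obtain ⟨j, hj, hzj⟩ := hne
    have h1 := congrArg (fun P => Polynomial.coeff P j) h0
    simp only [P, Polynomial.finsetSum_coeff, Polynomial.coeff_monomial, Polynomial.coeff_zero]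
      at h1
    rw [Finset.sum_ite_eq' (Finset.range (p + 1)) j, if_pos (by simp; omega)] at h1
    have h2 : ((a j : algebraicClosure ℚ ℝ) : ℝ) = 0 := by rw [h1]; rfl
    rw [ha j hj, div_eq_zero_iff] at h2
    rcases h2 with h2 | h2
    · exact hzj h2
    · exact absurd h2 (pow_ne_zero _ Real.pi_pos.ne')
  have h3 : IsAlgebraic (algebraicClosure ℚ ℝ) Real.pi := ⟨P, hP0, hP⟩
  have h4 : Algebra.IsAlgebraic ℚ (algebraicClosure ℚ ℝ) := algebraicClosure.isAlgebraic ℚ ℝ
  exact transcendental_pi (h3.restrictScalars ℚ)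

lemma pi_pow_mem (n : ℕ) : Real.pi ^ (2 * n) ∈ Z (2 * n) := by
  have := Z_pow pi_sq_mem n
  rw [← pow_mul] at this
  convert this using 2
  ring

theorem finrank_ge {j : ℕ} {z : ℝ} (hz : z ∈ Z j) (_hj : 0 < j)
    (htr : Transcendental ℚ (z / Real.pi ^ j)) (w : ℕ) (hw : 2 ≤ w) :
    (w - 2) / (2 * j) + 1 ≤ Module.finrank ℚ (Z w) := by
  set m := (w - 2) / (2 * j) with hm
  have hdm := Nat.div_add_mod (w - 2) (2 * j)
  rw [← hm] at hdm
  set r := w - 2 * j * m with hr
  have hr2 : 2 ≤ r := by omega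
  obtain ⟨y, hy, hy0⟩ := exists_ne_zero_mem_Z r (by omega)
  have hwr : 2 * j * m + r = w := by omega
  have hmem : ∀ i : Fin (m + 1),
      z ^ (2 * (i : ℕ)) * Real.pi ^ (2 * (j * (m - i))) * y ∈ Z w := by
    intro i
    have hi : (i : ℕ) ≤ m := by omega
    have h1 := Z_mul (Z_mul (Z_pow hz (2 * (i : ℕ))) (pi_pow_mem (j * (m - i)))) hy
    convert h1 using 2
    obtain ⟨d, hd⟩ : ∃ d, m = i + d := ⟨m - i, by omega⟩
    have hmi : m - (i : ℕ) = d := by omega
    have e : 2 * (i : ℕ) * j + 2 * (j * d) = 2 * j * (i + d) := by ring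
    rw [← hwr, hmi, e, ← hd]
  let e : Fin (m + 1) → Z w := fun i => ⟨_, hmem i⟩
  have hpi : Real.pi ≠ 0 := Real.pi_pos.ne'
  have hli : LinearIndependent ℚ e := by
    rw [Fintype.linearIndependent_iff]
    intro g hg i
    have h1 : ∑ i : Fin (m + 1), (g i : ℝ) *
        (z ^ (2 * (i : ℕ)) * Real.pi ^ (2 * (j * (m - i))) * y) = 0 := by
      have := congrArg (Submodule.subtype (Z w)) hg
      simpa [e, Rat.smul_def] using this
    have hτ : Transcendental ℚ ((z / Real.pi ^ j) ^ 2) := htr.pow (by norm_num)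
    have h2 : ∑ i : Fin (m + 1), (g i : ℝ) * ((z / Real.pi ^ j) ^ 2) ^ (i : ℕ) = 0 := by
      have hne : y * Real.pi ^ (2 * (j * m)) ≠ 0 := mul_ne_zero hy0 (pow_ne_zero _ hpi)
      have : (y * Real.pi ^ (2 * (j * m))) *
          ∑ i : Fin (m + 1), (g i : ℝ) * ((z / Real.pi ^ j) ^ 2) ^ (i : ℕ) = 0 := by
        rw [← h1, Finset.mul_sum]
        refine Finset.sum_congr rfl (fun i _ => ?_)
        obtain ⟨d, hd⟩ : ∃ d, m = i + d := ⟨m - i, by omega⟩
        have hmi : m - (i : ℕ) = d := by omega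
        have e1 : Real.pi ^ (2 * (j * m)) =
            Real.pi ^ (2 * (j * (i : ℕ))) * Real.pi ^ (2 * (j * (m - i))) := by
          have e : 2 * (j * (i : ℕ)) + 2 * (j * d) = 2 * (j * (i + d)) := by ring
          rw [← pow_add, hmi, e, ← hd]
        have e2 : ((z / Real.pi ^ j) ^ 2) ^ (i : ℕ) =
            z ^ (2 * (i : ℕ)) / Real.pi ^ (2 * (j * (i : ℕ))) := by
          rw [← pow_mul, div_pow, ← pow_mul]; congr 2; ring
        rw [e1, e2]
        field_simp
      exact (mul_eq_zero.mp this).resolve_left hne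
    let P : Polynomial ℚ := ∑ i : Fin (m + 1), Polynomial.monomial (i : ℕ) (g i)
    have hP : Polynomial.aeval ((z / Real.pi ^ j) ^ 2) P = 0 := by
      simp only [P, map_sum, Polynomial.aeval_monomial]
      exact h2
    have hP0 : P = 0 := by
      by_contra hne
      exact hτ ⟨P, hne, hP⟩
    have h3 := congrArg (fun P => Polynomial.coeff P (i : ℕ)) hP0
    simp only [P, Polynomial.finsetSum_coeff, Polynomial.coeff_monomial, Polynomial.coeff_zero]
      at h3
    rw [Finset.sum_eq_single i] at h3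
    · simpa using h3
    · intro b _ hb
      rw [if_neg]
      intro h; exact hb (Fin.ext h)
    · intro h; exact absurd (Finset.mem_univ _) h
  have := hli.fintype_card_le_finrank
  simpa using this

/-- Dichotomy. -/
theorem dichotomy (p : ℕ) :
    (∀ z : ℕ → ℝ, (∀ j ≤ p, z j ∈ Z j) → (∑ j ∈ Finset.range (p + 1), z j) = 0 →
      ∀ j ≤ p, z j = 0) ∨
    ∀ w : ℕ, 2 ≤ w → w - 1 ≤ 2 * p * Module.finrank ℚ (Z w) := by
  by_cases hcase : ∀ z : ℕ → ℝ, (∀ j ≤ p, z j ∈ Z j) →
      (∑ j ∈ Finset.range (p + 1), z j) = 0 → ∀ j ≤ p, z j = 0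
  · exact Or.inl hcase
  · right
    push Not at hcase
    obtain ⟨z, hz, hsum, j₀, hj₀, hzj₀⟩ := hcase
    obtain ⟨j, hj, hzj, htr⟩ := exists_transcendental_component p z hsum ⟨j₀, hj₀, hzj₀⟩
    have hj1 : 0 < j := by
      rcases Nat.eq_zero_or_pos j with h | h
      · subst h
        exfalso
        apply htr
        rw [pow_zero, div_one]
        have h0 := hz 0 hj
        have : ∀ x ∈ Z 0, ∃ q : ℚ, (q : ℝ) = x := by
          intro x hx
          unfold Z at hx
          induction hx using Submodule.span_induction with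
          | mem x hx =>
            rw [mem_mzvSet_iff] at hx
            obtain ⟨k, hk, hs, rfl⟩ := hx
            have : k = [] := by
              cases k with
              | nil => rfl
              | cons a k =>
                rw [Adm_cons] at hk
                simp only [List.sum_cons] at hs
                omega
            subst this
            exact ⟨1, by simp [zetaL]⟩
          | zero => exact ⟨0, by simp⟩
          | add x y _ _ hx hy =>
            obtain ⟨a, rfl⟩ := hx
            obtain ⟨b, rfl⟩ := hy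
            exact ⟨a + b, by push_cast; rfl⟩
          | smul c x _ hx =>
            obtain ⟨a, rfl⟩ := hx
            exact ⟨c * a, by rw [Rat.smul_def]; push_cast; rfl⟩
        obtain ⟨q, hq⟩ := this _ h0
        rw [← hq]
        exact isAlgebraic_algebraMap q
      · exact h
    intro w hw
    have h1 := finrank_ge (hz j hj) hj1 htr w hw
    have hdm := Nat.div_add_mod (w - 2) (2 * j)
    have hlt := Nat.mod_lt (w - 2) (show 0 < 2 * j by omega)
    set m := (w - 2) / (2 * j)
    calc w - 1 ≤ 2 * j * (m + 1) := by rw [mul_add]; omega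
      _ ≤ 2 * p * Module.finrank ℚ (Z w) := Nat.mul_le_mul (by omega) h1

end Pool.Agent.Work.MP_4d52ff_nt
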