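import Pool.Agent.Work.MP_4d52ff_nt.Qbar
import Pool.Agent.Work.MP_4d52ff_nt.Dichotomy

set_option autoImplicit false

namespace Pool.Agent.Work.MP_4d52ff_nt

open Finset

/-- span of the weight `w` MZVs over the algebraic numbers -/
noncomputable def ZB (w : ℕ) : Submodule (algebraicClosure ℚ ℂ) ℂ :=
  Submodule.span (algebraicClosure ℚ ℂ) ((fun x : ℝ => (x : ℂ)) '' mzvSet w)

instance (w : ℕ) : FiniteDimensional (algebraicClosure ℚ ℂ) (ZB w) :=
  FiniteDimensional.span_of_finite _ ((mzvSet_finite w).image _)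

theorem ZB_mul {a b : ℕ} {x y : ℂ} (hx : x ∈ ZB a) (hy : y ∈ ZB b) : x * y ∈ ZB (a + b) := by
  unfold ZB at hx hy
  induction hx using Submodule.span_induction with
  | mem x hx =>
    induction hy using Submodule.span_induction with
    | mem y hy =>
      obtain ⟨x, hx, rfl⟩ := hx
      obtain ⟨y, hy, rfl⟩ := hy
      simp only
      rw [← Complex.ofReal_mul]
      exact ofReal_mem_span (Z_mul (Submodule.subset_span hx) (Submodule.subset_span hy))
    | zero => rw [mul_zero]; exact Submodule.zero_mem _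
    | add y z _ _ h1 h2 => rw [mul_add]; exact Submodule.add_mem _ h1 h2
    | smul c y _ h => rw [mul_smul_comm]; exact Submodule.smul_mem _ _ h
  | zero => rw [zero_mul]; exact Submodule.zero_mem _
  | add y z _ _ h1 h2 => rw [add_mul]; exact Submodule.add_mem _ h1 h2
  | smul c y _ h => rw [smul_mul_assoc]; exact Submodule.smul_mem _ _ h

lemma one_mem_ZB : (1 : ℂ) ∈ ZB 0 := by
  have := ofReal_mem_span one_mem_Z
  simpa [ZB] using this

lemma ZB_pow {w : ℕ} {x : ℂ} (hx : x ∈ ZB w) (k : ℕ) : x ^ k ∈ ZB (k * w) := by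
  induction k with
  | zero => rw [zero_mul, pow_zero]; exact one_mem_ZB
  | succ k ih =>
    rw [pow_succ]
    have := ZB_mul ih hx
    convert this using 2
    ring

lemma pi_pow_mem_ZB (n : ℕ) : (Real.pi : ℂ) ^ (2 * n) ∈ ZB (2 * n) := by
  have := ofReal_mem_span (pi_pow_mem n)
  simpa [ZB] using this

lemma transcendental_pi_bar : Transcendental (algebraicClosure ℚ ℂ) (Real.pi : ℂ) := by
  intro h
  have h1 : IsAlgebraic ℚ (Real.pi : ℂ) := by
    have h4 : Algebra.IsAlgebraic ℚ (algebraicClosure ℚ ℂ) := algebraicClosure.isAlgebraic ℚ ℂ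
    exact h.restrictScalars ℚ
  have h2 : (Real.pi : ℂ) = algebraMap ℝ ℂ Real.pi := rfl
  rw [h2, isAlgebraic_algebraMap_iff (algebraMap ℝ ℂ).injective] at h1
  exact transcendental_pi h1

lemma exists_transcendental_component_bar (p : ℕ) (z : ℕ → ℂ)
    (hsum : ∑ j ∈ Finset.range (p + 1), z j = 0) (hne : ∃ j ≤ p, z j ≠ 0) :
    ∃ j ≤ p, z j ≠ 0 ∧ Transcendental (algebraicClosure ℚ ℂ) (z j / (Real.pi : ℂ) ^ j) := by
  have h4 : Algebra.IsAlgebraic ℚ (algebraicClosure ℚ ℂ) := algebraicClosure.isAlgebraic ℚ ℂ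
  by_contra hcon
  push Not at hcon
  have hpi : (Real.pi : ℂ) ≠ 0 := by exact_mod_cast Real.pi_pos.ne'
  have halg : ∀ i ≤ p, IsAlgebraic ℚ (z i / (Real.pi : ℂ) ^ i) := by
    intro i hi
    by_cases h : z i = 0
    · rw [h, zero_div]; exact isAlgebraic_zero
    · have := hcon i hi h
      unfold Transcendental at this
      exact (not_not.mp this).restrictScalars ℚ
  classical
  let a : ℕ → algebraicClosure ℚ ℂ := fun i =>
    if h : i ≤ p then ⟨z i / (Real.pi : ℂ) ^ i, (mem_algebraicClosure_iff).2 (halg i h)⟩ else 0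
  have ha : ∀ i (h : i ≤ p), ((a i : algebraicClosure ℚ ℂ) : ℂ) = z i / (Real.pi : ℂ) ^ i := by
    intro i h
    simp [a, h]
  let P : Polynomial (algebraicClosure ℚ ℂ) :=
    ∑ i ∈ Finset.range (p + 1), Polynomial.monomial i (a i)
  have hP : Polynomial.aeval (Real.pi : ℂ) P = 0 := by
    simp only [P, map_sum]
    rw [← hsum]
    refine Finset.sum_congr rfl (fun i hi => ?_)
    rw [Finset.mem_range] at hi
    rw [Polynomial.aeval_monomial]
    change ((a i : algebraicClosure ℚ ℂ) : ℂ) * (Real.pi : ℂ) ^ i = z i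
    rw [ha i (by omega)]
    have h3 : (Real.pi : ℂ) ^ i ≠ 0 := pow_ne_zero _ hpi
    field_simp
  have hP0 : P ≠ 0 := by
    intro h0
    obtain ⟨j, hj, hzj⟩ := hne
    have h1 := congrArg (fun P => Polynomial.coeff P j) h0
    simp only [P, Polynomial.finsetSum_coeff, Polynomial.coeff_monomial, Polynomial.coeff_zero]
      at h1
    rw [Finset.sum_ite_eq' (Finset.range (p + 1)) j, if_pos (by simp; omega)] at h1
    have h2 : ((a j : algebraicClosure ℚ ℂ) : ℂ) = 0 := by rw [h1]; rfl
    rw [ha j hj, div_eq_zero_iff] at h2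
    rcases h2 with h2 | h2
    · exact hzj h2
    · exact absurd h2 (pow_ne_zero _ hpi)
  exact transcendental_pi_bar ⟨P, hP0, hP⟩

theorem finrank_ge_bar {j : ℕ} {z : ℂ} (hz : z ∈ ZB j)
    (htr : Transcendental (algebraicClosure ℚ ℂ) (z / (Real.pi : ℂ) ^ j)) (w : ℕ) (hw : 2 ≤ w) :
    (w - 2) / (2 * j) + 1 ≤ Module.finrank (algebraicClosure ℚ ℂ) (ZB w) := by
  set m := (w - 2) / (2 * j) with hm
  have hdm := Nat.div_add_mod (w - 2) (2 * j)
  rw [← hm] at hdm
  set r := w - 2 * j * m with hr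
  have hr2 : 2 ≤ r := by omega
  obtain ⟨y', hy', hy0'⟩ := exists_ne_zero_mem_Z r (by omega)
  have hy : (y' : ℂ) ∈ ZB r := ofReal_mem_span hy'
  have hy0 : (y' : ℂ) ≠ 0 := by exact_mod_cast hy0'
  set y : ℂ := (y' : ℂ)
  have hwr : 2 * j * m + r = w := by omega
  have hmem : ∀ i : Fin (m + 1),
      z ^ (2 * (i : ℕ)) * (Real.pi : ℂ) ^ (2 * (j * (m - i))) * y ∈ ZB w := by
    intro i
    have hi : (i : ℕ) ≤ m := by omega
    have h1 := ZB_mul (ZB_mul (ZB_pow hz (2 * (i : ℕ))) (pi_pow_mem_ZB (j * (m - i)))) hy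
    convert h1 using 2
    obtain ⟨d, hd⟩ : ∃ d, m = i + d := ⟨m - i, by omega⟩
    have hmi : m - (i : ℕ) = d := by omega
    have e : 2 * (i : ℕ) * j + 2 * (j * d) = 2 * j * (i + d) := by ring
    rw [← hwr, hmi, e, ← hd]
  let e : Fin (m + 1) → ZB w := fun i => ⟨_, hmem i⟩
  have hpi : (Real.pi : ℂ) ≠ 0 := by exact_mod_cast Real.pi_pos.ne'
  have hli : LinearIndependent (algebraicClosure ℚ ℂ) e := by
    rw [Fintype.linearIndependent_iff]
    intro g hg i
    have h1 : ∑ i : Fin (m + 1), (g i : ℂ) *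
        (z ^ (2 * (i : ℕ)) * (Real.pi : ℂ) ^ (2 * (j * (m - i))) * y) = 0 := by
      have := congrArg (Submodule.subtype (ZB w)) hg
      rw [map_sum, map_zero] at this
      exact this
    have hτ : Transcendental (algebraicClosure ℚ ℂ) ((z / (Real.pi : ℂ) ^ j) ^ 2) :=
      htr.pow (by norm_num)
    have h2 : ∑ i : Fin (m + 1), (g i : ℂ) * ((z / (Real.pi : ℂ) ^ j) ^ 2) ^ (i : ℕ) = 0 := by
      have hne : y * (Real.pi : ℂ) ^ (2 * (j * m)) ≠ 0 := mul_ne_zero hy0 (pow_ne_zero _ hpi)
      have : (y * (Real.pi : ℂ) ^ (2 * (j * m))) *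
          ∑ i : Fin (m + 1), (g i : ℂ) * ((z / (Real.pi : ℂ) ^ j) ^ 2) ^ (i : ℕ) = 0 := by
        rw [← h1, Finset.mul_sum]
        refine Finset.sum_congr rfl (fun i _ => ?_)
        obtain ⟨d, hd⟩ : ∃ d, m = i + d := ⟨m - i, by omega⟩
        have hmi : m - (i : ℕ) = d := by omega
        have e1 : (Real.pi : ℂ) ^ (2 * (j * m)) =
            (Real.pi : ℂ) ^ (2 * (j * (i : ℕ))) * (Real.pi : ℂ) ^ (2 * (j * (m - i))) := by
          have e : 2 * (j * (i : ℕ)) + 2 * (j * d) = 2 * (j * (i + d)) := by ring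
          rw [← pow_add, hmi, e, ← hd]
        have e2 : ((z / (Real.pi : ℂ) ^ j) ^ 2) ^ (i : ℕ) =
            z ^ (2 * (i : ℕ)) / (Real.pi : ℂ) ^ (2 * (j * (i : ℕ))) := by
          rw [← pow_mul, div_pow, ← pow_mul]; congr 2; ring
        rw [e1, e2]
        field_simp
      exact (mul_eq_zero.mp this).resolve_left hne
    let P : Polynomial (algebraicClosure ℚ ℂ) :=
      ∑ i : Fin (m + 1), Polynomial.monomial (i : ℕ) (g i)
    have hP : Polynomial.aeval ((z / (Real.pi : ℂ) ^ j) ^ 2) P = 0 := by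
      simp only [P, map_sum, Polynomial.aeval_monomial]
      exact h2
    have hP0 : P = 0 := by
      by_contra hne
      exact hτ ⟨P, hne, hP⟩
    have h3 := congrArg (fun P => Polynomial.coeff P (i : ℕ)) hP0
    simp only [P, Polynomial.finsetSum_coeff, Polynomial.coeff_monomial, Polynomial.coeff_zero]
      at h3
    rw [Finset.sum_eq_single i] at h3
    · simpa using h3
    · intro b _ hb
      rw [if_neg]
      intro h; exact hb (Fin.ext h)
    · intro h; exact absurd (Finset.mem_univ _) h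
  have := hli.fintype_card_le_finrank
  simpa using this

/-- Dichotomy over the algebraic numbers. -/
theorem dichotomyBar (p : ℕ) :
    (∀ z : ℕ → ℂ, (∀ j ≤ p, z j ∈ ZB j) → (∑ j ∈ Finset.range (p + 1), z j) = 0 →
      ∀ j ≤ p, z j = 0) ∨
    ∀ w : ℕ, 2 ≤ w → w - 1 ≤ 2 * p * Module.finrank (algebraicClosure ℚ ℂ) (ZB w) := by
  by_cases hcase : ∀ z : ℕ → ℂ, (∀ j ≤ p, z j ∈ ZB j) →
      (∑ j ∈ Finset.range (p + 1), z j) = 0 → ∀ j ≤ p, z j = 0
  · exact Or.inl hcase
  · right
    push Not at hcase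
    obtain ⟨z, hz, hsum, j₀, hj₀, hzj₀⟩ := hcase
    obtain ⟨j, hj, hzj, htr⟩ := exists_transcendental_component_bar p z hsum ⟨j₀, hj₀, hzj₀⟩
    have hj1 : 0 < j := by
      rcases Nat.eq_zero_or_pos j with h | h
      · subst h
        exfalso
        apply htr
        rw [pow_zero, div_one]
        have h0 := hz 0 hj
        have : ∀ x ∈ ZB 0, ∃ q : algebraicClosure ℚ ℂ, (q : ℂ) = x := by
          intro x hx
          unfold ZB at hx
          induction hx using Submodule.span_induction with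
          | mem x hx =>
            obtain ⟨x, hx, rfl⟩ := hx
            rw [mem_mzvSet_iff] at hx
            obtain ⟨k, hk, hs, rfl⟩ := hx
            have : k = [] := by
              cases k with
              | nil => rfl
              | cons a k =>
                rw [Adm_cons] at hk
                simp only [List.sum_cons] at hs
                omega
            subst this
            exact ⟨1, by simp [zetaL]⟩
          | zero => exact ⟨0, by simp⟩
          | add x y _ _ hx hy =>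
            obtain ⟨a, rfl⟩ := hx
            obtain ⟨b, rfl⟩ := hy
            exact ⟨a + b, by push_cast; rfl⟩
          | smul c x _ hx =>
            obtain ⟨a, rfl⟩ := hx
            exact ⟨c * a, rfl⟩
        obtain ⟨q, hq⟩ := this _ h0
        rw [← hq]
        exact isAlgebraic_algebraMap q
      · exact h
    intro w hw
    have h1 := finrank_ge_bar (hz j hj) htr w hw
    have hdm := Nat.div_add_mod (w - 2) (2 * j)
    have hlt := Nat.mod_lt (w - 2) (show 0 < 2 * j by omega)
    set m := (w - 2) / (2 * j)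
    calc w - 1 ≤ 2 * j * (m + 1) := by rw [mul_add]; omega
      _ ≤ 2 * p * Module.finrank (algebraicClosure ℚ ℂ) (ZB w) := Nat.mul_le_mul (by omega) h1

end Pool.Agent.Work.MP_4d52ff_nt
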