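import Pool.Agent.Work.MP_4d52ff_nt.Aut

set_option autoImplicit false

namespace Pool.Agent.Work.MP_4d52ff_nt

open Finset MvPolynomial TensorProduct

theorem exists_derivation_over {K : Type} [Field K] [Algebra K ℂ] {ι : Type} (x : ι → ℂ)
    (hx : IsTranscendenceBasis K x) (v : ι → ℂ) :
    ∃ D : Derivation K ℂ ℂ, ∀ i, D (x i) = v i := by
  classical
  have hchar : CharZero K := (algebraMap K ℂ).charZero_iff (algebraMap K ℂ).injective |>.2
    inferInstance
  let A := MvPolynomial ι K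
  let algA : Algebra A ℂ := (aeval x : A →ₐ[K] ℂ).toRingHom.toAlgebra
  have hmap : ∀ a : A, algebraMap A ℂ a = aeval x a := fun a => rfl
  have : IsScalarTower K A ℂ := IsScalarTower.of_algebraMap_eq (fun q => by
    rw [hmap, AlgHom.commutes])
  have hinj : Function.Injective (algebraMap A ℂ) := hx.1
  have : FaithfulSMul A ℂ := (faithfulSMul_iff_algebraMap_injective A ℂ).2 hinj
  let K₀ := FractionRing A
  let algK : Algebra K₀ ℂ := FractionRing.liftAlgebra A ℂ
  have : IsScalarTower A K₀ ℂ := FractionRing.isScalarTower_liftAlgebra A ℂ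
  have : Algebra.IsAlgebraic A ℂ := by
    have h1 : Algebra.IsAlgebraic (Algebra.adjoin K (Set.range x)) ℂ := hx.isAlgebraic
    refine Algebra.IsAlgebraic.of_ringHom_of_comp_eq (hx.1.aevalEquiv : _ ≃ₐ[K] _).toRingEquiv
      (RingHom.id ℂ) (RingEquiv.surjective _) Function.injective_id ?_
    ext a
    · exact hx.1.algebraMap_aevalEquiv (C a)
    · exact hx.1.algebraMap_aevalEquiv (X a)
  have : Algebra.IsAlgebraic K₀ ℂ :=
    IsFractionRing.comap_isAlgebraic_iff (A := A) (K := K₀) (C := ℂ) |>.1 inferInstance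
  have : Algebra.FormallyEtale K₀ ℂ := Algebra.FormallyEtale.of_isSeparable K₀ ℂ
  have : Algebra.FormallyEtale A K₀ := Algebra.FormallyEtale.of_isLocalization (nonZeroDivisors A)
  have : Algebra.FormallyEtale A ℂ := Algebra.FormallyEtale.comp A K₀ ℂ
  let d : Derivation K A ℂ := mkDerivation K v
  let L : ℂ ⊗[A] Ω[A⁄K] →ₗ[ℂ] ℂ := LinearMap.liftBaseChange ℂ d.liftKaehlerDifferential
  let e := KaehlerDifferential.tensorKaehlerEquivOfFormallyEtale K A ℂ
  refine ⟨(L ∘ₗ e.symm.toLinearMap).compDer (KaehlerDifferential.D K ℂ), fun i => ?_⟩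
  have h := KaehlerDifferential.tensorKaehlerEquivOfFormallyEtale_symm_D_algebraMap K A ℂ (X i)
  have hX : algebraMap A ℂ (X i) = x i := by rw [hmap]; simp
  rw [hX] at h
  change L (e.symm (KaehlerDifferential.D K ℂ (x i))) = v i
  rw [h]
  have h4 : d (X i) = v i := mkDerivation_X K v i
  simpa [L] using h4

theorem exists_euler {K : Type} [Field K] [Algebra K ℂ] (x : ℂ) (hx : Transcendental K x) :
    ∃ D : Derivation K ℂ ℂ, D x = x := by
  have h1 : AlgebraicIndepOn K id ({x} : Set ℂ) := by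
    have : AlgebraicIndependent K (fun i : ({x} : Set ℂ) => (i : ℂ)) := by
      rw [algebraicIndependent_unique_type_iff]
      exact hx
    exact this
  obtain ⟨t, hst, ht⟩ := exists_isTranscendenceBasis_superset h1
  have hxt : x ∈ t := hst rfl
  obtain ⟨D, hD⟩ := exists_derivation_over _ ht (fun i => (i : ℂ))
  exact ⟨D, hD ⟨x, hxt⟩⟩

theorem exists_derivation_of_direct (h : Direct) :
    ∃ D : Derivation ℚ ℂ ℂ, ∀ w : ℕ, ∀ x ∈ Z w, D (x : ℂ) = (w : ℂ) * x := by
  obtain ⟨D, hD⟩ := exists_euler (K := K0) (v : ℂ) (transcendental_v_of_direct h)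
  refine ⟨D.restrictScalars ℚ, fun w x hx => ?_⟩
  have h2 : algebraMap K0 ℂ ⟨_, div_v_pow_mem hx⟩ = ((x / v ^ w : ℝ) : ℂ) := rfl
  have h3 : (x : ℂ) = algebraMap K0 ℂ ⟨_, div_v_pow_mem hx⟩ * (v : ℂ) ^ w := by
    rw [h2, ← Complex.ofReal_pow, ← Complex.ofReal_mul]
    congr 1
    have := (pow_pos v_pos w).ne'
    field_simp
  change D (x : ℂ) = (w : ℂ) * x
  rw [h3, ← Algebra.smul_def, D.map_smul, D.leibniz_pow, hD]
  have h4 : w • (v : ℂ) ^ (w - 1) • (v : ℂ) = (w : ℂ) * (v : ℂ) ^ w := by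
    cases w with
    | zero => simp
    | succ n =>
      rw [Nat.add_sub_cancel, nsmul_eq_mul, smul_eq_mul, pow_succ]
  rw [h4, Algebra.smul_def, Algebra.smul_def]
  ring

theorem direct_of_derivation (D : Derivation ℚ ℂ ℂ)
    (hD : ∀ w : ℕ, ∀ x ∈ mzvSet w, D (x : ℂ) = (w : ℂ) * x) : Direct := by
  have hZ : ∀ w : ℕ, ∀ x ∈ Z w, D (x : ℂ) = (w : ℂ) * x := by
    intro w x hx
    unfold Z at hx
    induction hx using Submodule.span_induction with
    | mem x hx => exact hD w x hx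
    | zero => simp
    | add x y _ _ hx hy => push_cast; rw [map_add, hx, hy]; ring
    | smul c x _ hx =>
      have h1 : ((c • x : ℝ) : ℂ) = c • (x : ℂ) := by
        rw [Rat.smul_def, Rat.smul_def]; push_cast; rfl
      rw [h1, D.map_smul, hx]
      rw [Rat.smul_def, Rat.smul_def]; ring
  intro p z hz hsum
  have key : ∀ f : Polynomial ℚ,
      ∑ j ∈ Finset.range (p + 1), ((f.eval (j : ℚ) : ℚ) : ℂ) * (z j : ℂ) = 0 := by
    intro f
    induction f using Polynomial.induction_on' with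
    | add f g hf hg =>
      simp only [Polynomial.eval_add]
      push_cast
      simp only [add_mul, Finset.sum_add_distrib, hf, hg, add_zero]
    | monomial n a =>
      have h1 : ∀ n : ℕ, ∑ j ∈ Finset.range (p + 1), ((j : ℂ) ^ n) * (z j : ℂ) = 0 := by
        intro n
        induction n with
        | zero =>
          simp only [pow_zero, one_mul]
          rw [← Complex.ofReal_sum, hsum]; rfl
        | succ n ih =>
          have h3 := congrArg D ih
          rw [map_sum, map_zero] at h3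
          rw [← h3]
          refine Finset.sum_congr rfl (fun j hj => ?_)
          rw [Finset.mem_range] at hj
          have h4 : ((j : ℂ) ^ n) * (z j : ℂ) = ((j : ℚ) ^ n) • (z j : ℂ) := by
            rw [Rat.smul_def]; push_cast; rfl
          rw [h4, D.map_smul, hZ j _ (hz j (by omega)), Rat.smul_def]
          push_cast; ring
      simp only [Polynomial.eval_monomial]
      push_cast
      have h5 : ∀ j ∈ Finset.range (p + 1), (a : ℂ) * (j : ℂ) ^ n * (z j : ℂ) =
          (a : ℂ) * ((j : ℂ) ^ n * (z j : ℂ)) := fun j _ => by ring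
      rw [Finset.sum_congr rfl h5, ← Finset.mul_sum, h1, mul_zero]
  intro j₀ hj₀
  have h1 := key (∏ i ∈ (Finset.range (p + 1)).erase j₀, (Polynomial.X - Polynomial.C (i : ℚ)))
  rw [Finset.sum_eq_single j₀] at h1
  · rcases mul_eq_zero.mp h1 with h2 | h2
    · exfalso
      rw [Rat.cast_eq_zero, Polynomial.eval_prod, Finset.prod_eq_zero_iff] at h2
      obtain ⟨i, hi, h3⟩ := h2
      simp only [Polynomial.eval_sub, Polynomial.eval_X, Polynomial.eval_C] at h3
      have h4 : (j₀ : ℚ) = (i : ℚ) := by linarith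
      have h5 : j₀ = i := by exact_mod_cast h4
      exact (Finset.mem_erase.mp hi).1 h5.symm
    · exact_mod_cast h2
  · intro j hj hne
    rw [Polynomial.eval_prod]
    rw [Finset.prod_eq_zero (Finset.mem_erase.mpr ⟨hne, hj⟩) (by simp)]
    simp
  · intro h
    exact absurd (Finset.mem_range.mpr (by omega)) h

/-- equivalent forms of the direct sum statement -/
theorem direct_tfae : List.TFAE [
    Direct,
    Transcendental K0 Real.pi,
    ∀ q : ℚ, q ≠ 0 → ∃ σ : ℂ ≃+* ℂ, ∀ w : ℕ, ∀ x ∈ mzvSet w, σ (x : ℂ) = (q : ℂ) ^ w * x,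
    ∃ q : ℚ, q ≠ 0 ∧ q ≠ 1 ∧ q ≠ -1 ∧
      ∃ σ : ℂ ≃+* ℂ, ∀ w : ℕ, ∀ x ∈ mzvSet w, σ (x : ℂ) = (q : ℂ) ^ w * x,
    ∃ D : Derivation ℚ ℂ ℂ, ∀ w : ℕ, ∀ x ∈ mzvSet w, D (x : ℂ) = (w : ℂ) * x] := by
  tfae_have 1 ↔ 2 := direct_iff_transcendental
  tfae_have 1 → 3 := by
    intro h q hq
    obtain ⟨σ, hσ⟩ := exists_aut_of_direct h q hq
    exact ⟨σ, fun w x hx => hσ w x (Submodule.subset_span hx)⟩
  tfae_have 3 → 4 := by
    intro h
    obtain ⟨σ, hσ⟩ := h 2 (by norm_num)
    exact ⟨2, by norm_num, by norm_num, by norm_num, σ, hσ⟩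
  tfae_have 4 → 1 := by
    rintro ⟨q, h0, h1, h2, σ, hσ⟩
    exact direct_of_aut q h0 h1 h2 σ hσ
  tfae_have 1 → 5 := by
    intro h
    obtain ⟨D, hD⟩ := exists_derivation_of_direct h
    exact ⟨D, fun w x hx => hD w x (Submodule.subset_span hx)⟩
  tfae_have 5 → 1 := by
    rintro ⟨D, hD⟩
    exact direct_of_derivation D hD
  tfae_finish

end Pool.Agent.Work.MP_4d52ff_nt
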