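import Pool.Agent.Work.MP_4d52ff_nt.Pattern

set_option autoImplicit false

namespace Pool.Agent.Work.MP_4d52ff_nt

open Finset

/-- quotients of elements of equal weight -/
def ratioSet : Set ℝ := {r : ℝ | ∃ w : ℕ, ∃ x ∈ Z w, ∃ y ∈ Z w, r = x / y}

/-- the field generated by the quotients of elements of equal weight -/
noncomputable def K0 : IntermediateField ℚ ℝ := IntermediateField.adjoin ℚ ratioSet

/-- presentation as a quotient -/
def IsRatio (r : ℝ) : Prop := ∃ w : ℕ, ∃ x ∈ Z w, ∃ y ∈ Z w, y ≠ 0 ∧ r = x / y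

lemma rat_mem_Z0 (q : ℚ) : (q : ℝ) ∈ Z 0 := by
  have := Submodule.smul_mem (Z 0) q one_mem_Z
  rwa [Rat.smul_def, mul_one] at this

lemma isRatio_of_mem {r : ℝ} (hr : r ∈ K0) : IsRatio r := by
  unfold K0 at hr
  induction hr using IntermediateField.adjoin_induction with
  | mem r hr =>
    obtain ⟨w, x, hx, y, hy, rfl⟩ := hr
    by_cases h : y = 0
    · exact ⟨0, 0, Submodule.zero_mem _, 1, one_mem_Z, one_ne_zero, by simp [h]⟩
    · exact ⟨w, x, hx, y, hy, h, rfl⟩
  | algebraMap q => exact ⟨0, (q : ℝ), rat_mem_Z0 q, 1, one_mem_Z, one_ne_zero, by simp⟩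
  | add r s _ _ h1 h2 =>
    obtain ⟨w, x, hx, y, hy, hy0, rfl⟩ := h1
    obtain ⟨w', x', hx', y', hy', hy0', rfl⟩ := h2
    refine ⟨w + w', x * y' + y * x', Submodule.add_mem _ (Z_mul hx hy') (Z_mul hy hx'),
      y * y', Z_mul hy hy', mul_ne_zero hy0 hy0', ?_⟩
    field_simp
  | mul r s _ _ h1 h2 =>
    obtain ⟨w, x, hx, y, hy, hy0, rfl⟩ := h1
    obtain ⟨w', x', hx', y', hy', hy0', rfl⟩ := h2
    refine ⟨w + w', x * x', Z_mul hx hx', y * y', Z_mul hy hy', mul_ne_zero hy0 hy0', ?_⟩
    field_simp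
  | inv r _ h1 =>
    obtain ⟨w, x, hx, y, hy, hy0, rfl⟩ := h1
    by_cases h : x = 0
    · exact ⟨0, 0, Submodule.zero_mem _, 1, one_mem_Z, one_ne_zero, by simp [h]⟩
    · exact ⟨w, y, hy, x, hx, h, by simp⟩

lemma mem_K0_of {w : ℕ} {x y : ℝ} (hx : x ∈ Z w) (hy : y ∈ Z w) : x / y ∈ K0 :=
  IntermediateField.subset_adjoin _ _ ⟨w, x, hx, y, hy, rfl⟩

/-- common denominators -/
lemma common_denom (n : ℕ) (c : ℕ → ℝ) (hc : ∀ i < n, c i ∈ K0) :
    ∃ N : ℕ, ∃ y ∈ Z N, y ≠ 0 ∧ ∀ i < n, y * c i ∈ Z N := by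
  induction n with
  | zero => exact ⟨0, 1, one_mem_Z, one_ne_zero, fun i hi => absurd hi (Nat.not_lt_zero _)⟩
  | succ n ih =>
    obtain ⟨N, y, hy, hy0, h⟩ := ih (fun i hi => hc i (Nat.lt_succ_of_lt hi))
    obtain ⟨w, x', hx', y', hy', hy0', hr⟩ := isRatio_of_mem (hc n (Nat.lt_succ_self n))
    refine ⟨N + w, y * y', Z_mul hy hy', mul_ne_zero hy0 hy0', fun i hi => ?_⟩
    rcases Nat.lt_succ_iff_lt_or_eq.mp hi with h1 | h1
    · have := Z_mul (h i h1) hy'
      convert this using 1; ring
    · subst h1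
      have := Z_mul hy hx'
      convert this using 1
      rw [hr]; field_simp

lemma zeta2_mem : zetaL [2] ∈ Z 2 := by
  have hA : Adm [2] := by rw [Adm_cons]; exact ⟨le_refl _, by simp⟩
  simpa using zetaL_mem _ hA

lemma zeta3_mem : zetaL [3] ∈ Z 3 := by
  have hA : Adm [3] := by rw [Adm_cons]; exact ⟨by norm_num, by simp⟩
  simpa using zetaL_mem _ hA

lemma zeta2_pos : 0 < zetaL [2] := zetaL_pos _ (by rw [Adm_cons]; exact ⟨le_refl _, by simp⟩)
lemma zeta3_pos : 0 < zetaL [3] := zetaL_pos _ (by rw [Adm_cons]; exact ⟨by norm_num, by simp⟩)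

/-- an element of weight one: `ζ(3)/ζ(2)` -/
noncomputable def v : ℝ := zetaL [3] / zetaL [2]

lemma v_pos : 0 < v := div_pos zeta3_pos zeta2_pos

lemma Z_pow {w : ℕ} {x : ℝ} (hx : x ∈ Z w) (k : ℕ) : x ^ k ∈ Z (k * w) := by
  induction k with
  | zero => rw [zero_mul, pow_zero]; exact one_mem_Z
  | succ k ih =>
    rw [pow_succ]
    have := Z_mul ih hx
    convert this using 2
    ring

/-- elements of weight `w` are `K0`-multiples of `v ^ w` -/
lemma div_v_pow_mem {w : ℕ} {z : ℝ} (hz : z ∈ Z w) : z / v ^ w ∈ K0 := by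
  have h2 := zeta2_pos.ne'
  have h3 := zeta3_pos.ne'
  have e : z / v ^ w = (z * zetaL [2] ^ w) / (zetaL [3] ^ w) := by
    unfold v
    rw [div_pow]
    field_simp
  rw [e]
  have h4 : z * zetaL [2] ^ w ∈ Z (w * 3) := by
    have := Z_mul hz (Z_pow zeta2_mem w)
    convert this using 2; ring
  exact mem_K0_of h4 (Z_pow zeta3_mem w)

lemma pi_sq_div_v_sq : Real.pi ^ 2 / v ^ 2 ∈ K0 := div_v_pow_mem pi_sq_mem

/-- if `v` is algebraic over `K0`, then so is `π`, and conversely -/
lemma pi_alg_iff : IsAlgebraic K0 Real.pi ↔ IsAlgebraic K0 v := by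
  have hc : IsAlgebraic K0 (Real.pi ^ 2 / v ^ 2) :=
    isAlgebraic_algebraMap (⟨_, pi_sq_div_v_sq⟩ : K0)
  have hv := (pow_pos v_pos 2).ne'
  constructor
  · intro h
    have h1 : IsAlgebraic K0 (v ^ 2) := by
      have : v ^ 2 = Real.pi ^ 2 * (Real.pi ^ 2 / v ^ 2)⁻¹ := by
        have := Real.pi_pos.ne'
        field_simp
      rw [this]
      exact (h.pow 2).mul hc.inv
    exact h1.of_pow (by norm_num)
  · intro h
    have h1 : IsAlgebraic K0 (Real.pi ^ 2) := by
      have : Real.pi ^ 2 = v ^ 2 * (Real.pi ^ 2 / v ^ 2) := by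
        have := v_pos.ne'
        field_simp
      rw [this]
      exact (h.pow 2).mul hc
    exact h1.of_pow (by norm_num)

/-- the criterion -/
theorem direct_iff_transcendental : Direct ↔ Transcendental K0 Real.pi := by
  constructor
  · intro hdir halg
    obtain ⟨P, hP, hev⟩ := (halg.pow 2)
    obtain ⟨N, y, hy, hy0, hyc⟩ := common_denom (P.natDegree + 1) (fun i => (P.coeff i : ℝ))
      (fun i _ => (P.coeff i).2)
    -- relation in weights `N + 2 i`
    set z : ℕ → ℝ := fun j => if j < N then 0 else if (j - N) % 2 = 0 then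
      y * (P.coeff ((j - N) / 2) : ℝ) * (Real.pi ^ 2) ^ ((j - N) / 2) else 0 with hz
    have hzval : ∀ i, z (N + 2 * i) = y * (P.coeff i : ℝ) * (Real.pi ^ 2) ^ i := by
      intro i
      rw [hz]
      simp only
      rw [if_neg (by omega), if_pos (by omega)]
      have : (N + 2 * i - N) / 2 = i := by omega
      rw [this]
    have hcoe : ∀ i, P.natDegree < i → (P.coeff i : ℝ) = 0 := by
      intro i hi
      rw [Polynomial.coeff_eq_zero_of_natDegree_lt hi]; rfl
    have hmem : ∀ j ≤ N + 2 * P.natDegree, z j ∈ Z j := by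
      intro j hj
      rcases lt_or_ge j N with h1 | h1
      · have : z j = 0 := by rw [hz]; simp only; rw [if_pos h1]
        rw [this]; exact Submodule.zero_mem _
      · by_cases h2 : (j - N) % 2 = 0
        · obtain ⟨i, rfl⟩ : ∃ i, j = N + 2 * i := ⟨(j - N) / 2, by omega⟩
          rw [hzval]
          have h3 := Z_mul (hyc i (by omega)) (Z_pow pi_sq_mem i)
          convert h3 using 2
          ring
        · have : z j = 0 := by rw [hz]; simp only; rw [if_neg (by omega), if_neg h2]
          rw [this]; exact Submodule.zero_mem _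
    have hsum : ∑ j ∈ Finset.range (N + 2 * P.natDegree + 1), z j = 0 := by
      have e : ∑ i ∈ Finset.range (P.natDegree + 1), z (N + 2 * i) =
          ∑ j ∈ Finset.range (N + 2 * P.natDegree + 1), z j := by
        rw [← Finset.sum_image (f := z) (g := fun i => N + 2 * i)
          (s := Finset.range (P.natDegree + 1)) (by intro a _ b _ h; simp only at h; omega)]
        apply Finset.sum_subset
        · intro j hj
          simp only [Finset.mem_image, Finset.mem_range] at hj ⊢
          omega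
        · intro j hj hj'
          simp only [Finset.mem_image, Finset.mem_range, not_exists, not_and] at hj hj'
          rw [hz]
          simp only
          split_ifs with h1 h2
          · rfl
          · exact absurd (by omega) (hj' ((j - N) / 2) (by omega))
          · rfl
      rw [← e]
      rw [Polynomial.aeval_eq_sum_range] at hev
      calc ∑ i ∈ Finset.range (P.natDegree + 1), z (N + 2 * i)
          = y * ∑ i ∈ Finset.range (P.natDegree + 1), P.coeff i • (Real.pi ^ 2) ^ i := by
            rw [Finset.mul_sum]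
            refine Finset.sum_congr rfl (fun i _ => ?_)
            rw [hzval, mul_assoc]; rfl
        _ = 0 := by rw [hev, mul_zero]
    have h0 := hdir _ z hmem hsum
    apply hP
    ext i
    by_cases hi : P.natDegree < i
    · simpa using hcoe i hi
    · have h5 := h0 (N + 2 * i) (by omega)
      rw [hzval] at h5
      have h6 : (Real.pi ^ 2) ^ i ≠ 0 := by positivity
      simpa [hy0, h6] using h5
  · intro htr
    by_contra hnd
    apply htr
    rw [pi_alg_iff]
    unfold Direct at hnd
    push Not at hnd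
    obtain ⟨p, z, hz, hsum, j, hj, hzj⟩ := hnd
    classical
    -- polynomial
    let a : ℕ → K0 := fun i => if h : i ≤ p then ⟨z i / v ^ i, div_v_pow_mem (hz i h)⟩ else 0
    have ha : ∀ i (h : i ≤ p), ((a i : K0) : ℝ) = z i / v ^ i := by
      intro i h
      simp [a, h]
    refine ⟨∑ i ∈ Finset.range (p + 1), Polynomial.monomial i (a i), ?_, ?_⟩
    · intro h
      have h1 := congrArg (fun P => Polynomial.coeff P j) h
      simp only [Polynomial.finsetSum_coeff, Polynomial.coeff_monomial, Polynomial.coeff_zero]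
        at h1
      rw [Finset.sum_ite_eq' (Finset.range (p + 1)) j, if_pos (by simp; omega)] at h1
      have h2 : ((a j : K0) : ℝ) = 0 := by rw [h1]; rfl
      rw [ha j hj] at h2
      have h3 : v ^ j ≠ 0 := (pow_pos v_pos j).ne'
      rw [div_eq_zero_iff] at h2
      rcases h2 with h2 | h2
      · exact hzj h2
      · exact h3 h2
    · rw [map_sum]
      rw [← hsum]
      refine Finset.sum_congr rfl (fun i hi => ?_)
      rw [Finset.mem_range] at hi
      rw [Polynomial.aeval_monomial]
      change ((a i : K0) : ℝ) * v ^ i = z i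
      rw [ha i (by omega)]
      have h3 : v ^ i ≠ 0 := (pow_pos v_pos i).ne'
      field_simp

end Pool.Agent.Work.MP_4d52ff_nt
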