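import Pool.Agent.Work.MP_4d52ff_nt.Aut

set_option autoImplicit false

namespace Pool.Agent.Work.MP_4d52ff_nt

open Finset

/-- directness with algebraic coefficients -/
def DirectBar : Prop :=
  ∀ p : ℕ, ∀ z : ℕ → ℂ,
    (∀ j ≤ p, z j ∈ Submodule.span (algebraicClosure ℚ ℂ) ((fun x : ℝ => (x : ℂ)) '' mzvSet j)) →
    (∑ j ∈ Finset.range (p + 1), z j) = 0 → ∀ j ≤ p, z j = 0

lemma div_mem_algClosure {w : ℕ} {z : ℂ}
    (hz : z ∈ Submodule.span (algebraicClosure ℚ ℂ) ((fun x : ℝ => (x : ℂ)) '' mzvSet w)) :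
    IsAlgebraic K0 (z / (v : ℂ) ^ w) := by
  induction hz using Submodule.span_induction with
  | mem z hz =>
    obtain ⟨x, hx, rfl⟩ := hz
    have h1 : ((x : ℂ) / (v : ℂ) ^ w) =
        algebraMap K0 ℂ ⟨_, div_v_pow_mem (Submodule.subset_span hx : x ∈ Z w)⟩ := by
      change _ = ((x / v ^ w : ℝ) : ℂ)
      push_cast; rfl
    simp only
    rw [h1]
    exact isAlgebraic_algebraMap _
  | zero => rw [zero_div]; exact isAlgebraic_zero
  | add x y _ _ hx hy => rw [add_div]; exact hx.add hy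
  | smul c x _ hx =>
    have h1 : IsAlgebraic ℚ (c : ℂ) := (mem_algebraicClosure_iff).1 c.2
    have h2 : IsAlgebraic K0 (c : ℂ) := h1.tower_top K0
    have h3 : (c • x) / (v : ℂ) ^ w = (c : ℂ) * (x / (v : ℂ) ^ w) := by
      rw [show c • x = (c : ℂ) * x from rfl, mul_div_assoc]
    rw [h3]
    exact h2.mul hx

theorem directBar_of_direct (h : Direct) : DirectBar := by
  intro p z hz hsum
  have hv : Transcendental K0 (v : ℂ) := transcendental_v_of_direct h
  have hvA : Transcendental (algebraicClosure K0 ℂ) (v : ℂ) := by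
    intro h1
    exact hv (h1.restrictScalars K0)
  have hv0 : (v : ℂ) ≠ 0 := by exact_mod_cast v_pos.ne'
  classical
  let a : ℕ → algebraicClosure K0 ℂ := fun i =>
    if h : i ≤ p then ⟨z i / (v : ℂ) ^ i, (mem_algebraicClosure_iff).2 (div_mem_algClosure (hz i h))⟩
    else 0
  have ha : ∀ i (h : i ≤ p), ((a i : algebraicClosure K0 ℂ) : ℂ) = z i / (v : ℂ) ^ i := by
    intro i h
    simp [a, h]
  let P : Polynomial (algebraicClosure K0 ℂ) :=
    ∑ i ∈ Finset.range (p + 1), Polynomial.monomial i (a i)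
  have hP : Polynomial.aeval (v : ℂ) P = 0 := by
    simp only [P, map_sum]
    rw [← hsum]
    refine Finset.sum_congr rfl (fun i hi => ?_)
    rw [Finset.mem_range] at hi
    rw [Polynomial.aeval_monomial]
    change ((a i : algebraicClosure K0 ℂ) : ℂ) * (v : ℂ) ^ i = z i
    rw [ha i (by omega)]
    have h3 : (v : ℂ) ^ i ≠ 0 := pow_ne_zero _ hv0
    field_simp
  have hP0 : P = 0 := by
    by_contra hne
    exact hvA ⟨P, hne, hP⟩
  intro j hj
  have h1 := congrArg (fun P => Polynomial.coeff P j) hP0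
  simp only [P, Polynomial.finsetSum_coeff, Polynomial.coeff_monomial, Polynomial.coeff_zero]
    at h1
  rw [Finset.sum_ite_eq' (Finset.range (p + 1)) j, if_pos (by simp; omega)] at h1
  have h2 : ((a j : algebraicClosure K0 ℂ) : ℂ) = 0 := by rw [h1]; rfl
  rw [ha j hj, div_eq_zero_iff] at h2
  rcases h2 with h2 | h2
  · exact h2
  · exact absurd h2 (pow_ne_zero _ hv0)

lemma ofReal_mem_span {w : ℕ} {x : ℝ} (hx : x ∈ Z w) :
    (x : ℂ) ∈ Submodule.span (algebraicClosure ℚ ℂ) ((fun x : ℝ => (x : ℂ)) '' mzvSet w) := by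
  unfold Z at hx
  induction hx using Submodule.span_induction with
  | mem x hx => exact Submodule.subset_span ⟨x, hx, rfl⟩
  | zero => simp
  | add x y _ _ hx hy => push_cast; exact Submodule.add_mem _ hx hy
  | smul c x _ hx =>
    have h3 : ((c • x : ℝ) : ℂ) = (algebraMap ℚ (algebraicClosure ℚ ℂ) c) • (x : ℂ) := by
      rw [Rat.smul_def]
      push_cast
      rw [algebraMap_smul, Rat.smul_def]
    rw [h3]
    exact Submodule.smul_mem _ _ hx

theorem direct_of_directBar (h : DirectBar) : Direct := by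
  intro p z hz hsum j hj
  have h1 := h p (fun i => (z i : ℂ)) (fun i hi => ofReal_mem_span (hz i hi)) (by
    rw [← Complex.ofReal_sum, hsum]; rfl) j hj
  exact_mod_cast h1

end Pool.Agent.Work.MP_4d52ff_nt
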