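import Pool.Agent.Work.MP_4d52ff_nt.Equiv
import Pool.Agent.Work.MP_4d52ff_nt.Qbar

set_option autoImplicit false

namespace Pool.Agent.Work.MP_4d52ff_nt

open Finset

/-- the field generated by the normalised values -/
noncomputable def K1 : IntermediateField ℚ ℝ :=
  IntermediateField.adjoin ℚ {r : ℝ | ∃ w : ℕ, ∃ x ∈ mzvSet w, r = x / Real.pi ^ w}

lemma isAlgebraic_mono {A B : IntermediateField ℚ ℝ} (h : A ≤ B) {x : ℝ}
    (hx : IsAlgebraic A x) : IsAlgebraic B x := by
  obtain ⟨P, hP, he⟩ := hx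
  refine ⟨P.map (IntermediateField.inclusion h).toRingHom, ?_, ?_⟩
  · exact (Polynomial.map_ne_zero_iff (IntermediateField.inclusion h).toRingHom.injective).2 hP
  · rw [Polynomial.aeval_def, Polynomial.eval₂_map]
    rw [Polynomial.aeval_def] at he
    exact he

lemma div_pi_pow_mem {w : ℕ} {x : ℝ} (hx : x ∈ Z w) : x / Real.pi ^ w ∈ K1 := by
  unfold Z at hx
  induction hx using Submodule.span_induction with
  | mem x hx => exact IntermediateField.subset_adjoin _ _ ⟨w, x, hx, rfl⟩
  | zero => rw [zero_div]; exact K1.zero_mem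
  | add x y _ _ hx hy => rw [add_div]; exact K1.add_mem hx hy
  | smul c x _ hx =>
    rw [Rat.smul_def, mul_div_assoc]
    exact K1.mul_mem (SubfieldClass.ratCast_mem K1 c) hx

lemma K0_le_K1 : K0 ≤ K1 := by
  unfold K0
  rw [IntermediateField.adjoin_le_iff]
  rintro r ⟨w, x, hx, y, hy, rfl⟩
  have e : x / y = (x / Real.pi ^ w) / (y / Real.pi ^ w) := by
    have := (pow_pos Real.pi_pos w).ne'
    by_cases hy0 : y = 0
    · simp [hy0]
    · field_simp
  rw [e]
  exact K1.div_mem (div_pi_pow_mem hx) (div_pi_pow_mem hy)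

lemma K1_le : K1 ≤ (algebraicClosure K0 ℝ).restrictScalars ℚ := by
  unfold K1
  rw [IntermediateField.adjoin_le_iff]
  rintro r ⟨w, x, hx, rfl⟩
  change x / Real.pi ^ w ∈ algebraicClosure K0 ℝ
  rw [mem_algebraicClosure_iff]
  have hx' : x ∈ Z w := Submodule.subset_span hx
  have h1 : IsAlgebraic K0 ((x / Real.pi ^ w) ^ 2) := by
    have e : (x / Real.pi ^ w) ^ 2 = (x ^ 2) / (Real.pi ^ 2) ^ w := by
      rw [div_pow, ← pow_mul, ← pow_mul, mul_comm w 2]
    rw [e]
    have h2 : x ^ 2 ∈ Z (2 * w) := Z_pow hx' 2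
    have h3 : (Real.pi ^ 2) ^ w ∈ Z (2 * w) := by
      have := Z_pow pi_sq_mem w
      convert this using 2
      ring
    exact isAlgebraic_algebraMap (⟨_, mem_K0_of h2 h3⟩ : K0)
  exact h1.of_pow (by norm_num)

lemma transcendental_K1_iff : Transcendental K1 Real.pi ↔ Transcendental K0 Real.pi := by
  constructor
  · intro h h'
    exact h (isAlgebraic_mono K0_le_K1 h')
  · intro h h'
    apply h
    have h1 : IsAlgebraic ((algebraicClosure K0 ℝ).restrictScalars ℚ) Real.pi :=
      isAlgebraic_mono K1_le h'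
    have h2 : IsAlgebraic (algebraicClosure K0 ℝ) Real.pi := h1
    exact h2.restrictScalars K0

/-- the single weight form -/
def SingleWeight : Prop :=
  ∀ w d : ℕ, ∀ x : ℕ → ℝ, (∀ i ≤ d, x i ∈ Z w) →
    (∑ i ∈ Finset.range (d + 1), Real.pi ^ (2 * i) * x i) = 0 → ∀ i ≤ d, x i = 0

lemma singleWeight_iff : SingleWeight ↔ Transcendental K0 Real.pi := by
  constructor
  · intro h halg
    obtain ⟨P, hP, hev⟩ := (halg.pow 2)
    obtain ⟨N, y, hy, hy0, hyc⟩ := common_denom (P.natDegree + 1) (fun i => (P.coeff i : ℝ))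
      (fun i _ => (P.coeff i).2)
    have h0 := h N P.natDegree (fun i => y * (P.coeff i : ℝ)) (fun i hi => hyc i (by omega)) (by
      rw [Polynomial.aeval_eq_sum_range] at hev
      calc ∑ i ∈ Finset.range (P.natDegree + 1), Real.pi ^ (2 * i) * (y * (P.coeff i : ℝ))
          = y * ∑ i ∈ Finset.range (P.natDegree + 1), P.coeff i • (Real.pi ^ 2) ^ i := by
            rw [Finset.mul_sum]
            refine Finset.sum_congr rfl (fun i _ => ?_)
            rw [show P.coeff i • (Real.pi ^ 2) ^ i = (P.coeff i : ℝ) * (Real.pi ^ 2) ^ i from rfl]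
            ring
        _ = 0 := by rw [hev, mul_zero])
    apply hP
    ext i
    by_cases hi : P.natDegree < i
    · rw [Polynomial.coeff_eq_zero_of_natDegree_lt hi]; rfl
    · have h5 := h0 i (by omega)
      simpa [hy0] using h5
  · intro htr w d x hx hsum
    by_contra hcon
    push Not at hcon
    obtain ⟨j, hj, hne⟩ := hcon
    apply htr
    have key : IsAlgebraic K0 (Real.pi ^ 2) := by
      classical
      let a : ℕ → K0 := fun i => if h : i ≤ d then ⟨x i / x j, mem_K0_of (hx i h) (hx j hj)⟩ else 0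
      have ha : ∀ i (h : i ≤ d), ((a i : K0) : ℝ) = x i / x j := by
        intro i h
        simp [a, h]
      refine ⟨∑ i ∈ Finset.range (d + 1), Polynomial.monomial i (a i), ?_, ?_⟩
      · intro h
        have h1 := congrArg (fun P => Polynomial.coeff P j) h
        simp only [Polynomial.finsetSum_coeff, Polynomial.coeff_monomial, Polynomial.coeff_zero]
          at h1
        rw [Finset.sum_ite_eq' (Finset.range (d + 1)) j, if_pos (by simp; omega)] at h1
        have h2 : ((a j : K0) : ℝ) = 0 := by rw [h1]; rfl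
        rw [ha j hj, div_self hne] at h2
        exact one_ne_zero h2
      · rw [map_sum]
        have e : ∑ i ∈ Finset.range (d + 1),
            Polynomial.aeval (Real.pi ^ 2) (Polynomial.monomial i (a i)) =
            (∑ i ∈ Finset.range (d + 1), Real.pi ^ (2 * i) * x i) / x j := by
          rw [Finset.sum_div]
          refine Finset.sum_congr rfl (fun i hi => ?_)
          rw [Finset.mem_range] at hi
          rw [Polynomial.aeval_monomial]
          change ((a i : K0) : ℝ) * (Real.pi ^ 2) ^ i = _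
          rw [ha i (by omega), ← pow_mul]
          ring
        rw [e, hsum, zero_div]
    exact key.of_pow (by norm_num)

theorem forms_tfae : List.TFAE [
    Direct,
    Transcendental K1 Real.pi,
    SingleWeight,
    DirectBar,
    ∀ q : ℚ, q ≠ 0 → ∃ σ : ℂ ≃+* ℂ, ∀ w : ℕ, ∀ x ∈ mzvSet w, σ (x : ℂ) = (q : ℂ) ^ w * x,
    ∃ q : ℚ, q ≠ 0 ∧ q ≠ 1 ∧ q ≠ -1 ∧
      ∃ σ : ℂ ≃+* ℂ, ∀ w : ℕ, ∀ x ∈ mzvSet w, σ (x : ℂ) = (q : ℂ) ^ w * x,
    ∃ D : Derivation ℚ ℂ ℂ, ∀ w : ℕ, ∀ x ∈ mzvSet w, D (x : ℂ) = (w : ℂ) * x] := by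
  tfae_have 1 ↔ 2 := direct_iff_transcendental.trans transcendental_K1_iff.symm
  tfae_have 1 ↔ 3 := direct_iff_transcendental.trans singleWeight_iff.symm
  tfae_have 1 ↔ 4 := ⟨directBar_of_direct, direct_of_directBar⟩
  tfae_have 1 → 5 := by
    intro h q hq
    obtain ⟨σ, hσ⟩ := exists_aut_of_direct h q hq
    exact ⟨σ, fun w x hx => hσ w x (Submodule.subset_span hx)⟩
  tfae_have 5 → 6 := by
    intro h
    obtain ⟨σ, hσ⟩ := h 2 (by norm_num)
    exact ⟨2, by norm_num, by norm_num, by norm_num, σ, hσ⟩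
  tfae_have 6 → 1 := by
    rintro ⟨q, h0, h1, h2, σ, hσ⟩
    exact direct_of_aut q h0 h1 h2 σ hσ
  tfae_have 1 → 7 := by
    intro h
    obtain ⟨D, hD⟩ := exists_derivation_of_direct h
    exact ⟨D, fun w x hx => hD w x (Submodule.subset_span hx)⟩
  tfae_have 7 → 1 := by
    rintro ⟨D, hD⟩
    exact direct_of_derivation D hD
  tfae_finish

end Pool.Agent.Work.MP_4d52ff_nt
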