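import Pool.Agent.Work.MP_4d52ff_nt.MZV

set_option autoImplicit false

namespace Pool.Agent.Work.MP_4d52ff_nt

open Finset

/-- integer-indexed version of `Z`, zero in negative weights -/
noncomputable def ZZ (w : ℤ) : Submodule ℚ ℝ := if 0 ≤ w then Z w.toNat else ⊥

lemma ZZ_natCast (n : ℕ) : ZZ (n : ℤ) = Z n := by
  simp [ZZ]

lemma ZZ_of_neg {w : ℤ} (hw : w < 0) : ZZ w = ⊥ := by
  simp [ZZ, not_le.mpr hw]

lemma ZZ_mul {a b : ℤ} {x y : ℝ} (hx : x ∈ ZZ a) (hy : y ∈ ZZ b) : x * y ∈ ZZ (a + b) := by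
  rcases lt_or_ge a 0 with ha | ha
  · rw [ZZ_of_neg ha, Submodule.mem_bot] at hx
    rw [hx, zero_mul]; exact Submodule.zero_mem _
  rcases lt_or_ge b 0 with hb | hb
  · rw [ZZ_of_neg hb, Submodule.mem_bot] at hy
    rw [hy, mul_zero]; exact Submodule.zero_mem _
  obtain ⟨a, rfl⟩ := Int.eq_ofNat_of_zero_le ha
  obtain ⟨b, rfl⟩ := Int.eq_ofNat_of_zero_le hb
  rw [ZZ_natCast] at hx hy
  rw [← Int.natCast_add, ZZ_natCast]
  exact Z_mul hx hy

lemma ZZ_pow {a : ℤ} {x : ℝ} (hx : x ∈ ZZ a) (k : ℕ) : x ^ k ∈ ZZ (k * a) := by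
  induction k with
  | zero =>
    have : ZZ ((0 : ℕ) * a) = Z 0 := by
      rw [← ZZ_natCast]; congr 1; simp
    rw [this, pow_zero]; exact one_mem_Z
  | succ k ih =>
    rw [pow_succ]
    have := ZZ_mul ih hx
    convert this using 2
    push_cast; ring

/-- homogeneous elimination: `n` homogeneous equations in `n + 1` unknowns -/
theorem elim (n : ℕ) : ∀ (A B : ℤ), A ≤ B → ∀ (s : Fin (n + 1) → ℤ) (m : Fin n → ℤ),
    (∀ l, A ≤ s l) → (∀ i, m i ≤ B) → ∀ c : Fin (n + 1) → Fin n → ℝ,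
    (∀ l i, c l i ∈ ZZ (m i - s l)) →
    ∃ W : ℤ, W ≤ -A + (2 ^ n - 1) * (B - A) ∧ ∃ x : Fin (n + 1) → ℝ, x ≠ 0 ∧
      (∀ l, x l ∈ ZZ (W + s l)) ∧ ∀ i, ∑ l, x l * c l i = 0 := by
  induction n with
  | zero =>
    intro A B hAB s m hs hm c hc
    refine ⟨-s 0, ?_, fun _ => 1, ?_, ?_, fun i => i.elim0⟩
    · have := hs 0
      simp only [pow_zero, sub_self, zero_mul, add_zero]; linarith
    · intro h
      have := congrFun h 0
      simp at this
    · intro l
      have : l = 0 := Fin.fin_one_eq_zero l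
      subst this
      have e : ZZ (-s 0 + s 0) = Z 0 := by rw [← ZZ_natCast]; congr 1; simp
      rw [e]; exact one_mem_Z
  | succ n ih =>
    intro A B hAB s m hs hm c hc
    by_cases h : ∃ l, c l (Fin.last n) ≠ 0
    · obtain ⟨p, hp⟩ := h
      have hmB := hm (Fin.last n)
      have hsA := hs p
      obtain ⟨W, hW, x, hx, hxm, hxe⟩ := ih A (B + (B - A)) (by linarith)
        (fun l => s (p.succAbove l)) (fun i => m i.castSucc + (m (Fin.last n) - s p))
        (fun l => hs _)
        (fun i => by have := hm i.castSucc; linarith)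
        (fun l i => c p (Fin.last n) * c (p.succAbove l) i.castSucc -
          c (p.succAbove l) (Fin.last n) * c p i.castSucc)
        (fun l i => by
          apply Submodule.sub_mem
          · have := ZZ_mul (hc p (Fin.last n)) (hc (p.succAbove l) i.castSucc)
            convert this using 2; ring
          · have := ZZ_mul (hc (p.succAbove l) (Fin.last n)) (hc p i.castSucc)
            convert this using 2; ring)
      refine ⟨W + (m (Fin.last n) - s p), ?_,
        p.insertNth (-∑ l, x l * c (p.succAbove l) (Fin.last n))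
          (fun l => x l * c p (Fin.last n)), ?_, ?_, ?_⟩
      · have e : (2 : ℤ) ^ (n + 1) = 2 * 2 ^ n := by ring
        rw [e]
        nlinarith
      · obtain ⟨l, hl⟩ := Function.ne_iff.mp hx
        intro h0
        have := congrFun h0 (p.succAbove l)
        simp only [Fin.insertNth_apply_succAbove, Pi.zero_apply, mul_eq_zero] at this
        rcases this with h1 | h1
        · exact hl h1
        · exact hp h1
      · intro l
        refine Fin.succAboveCases p ?_ ?_ l
        · rw [Fin.insertNth_apply_same]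
          apply Submodule.neg_mem
          apply Submodule.sum_mem
          intro l _
          have := ZZ_mul (hxm l) (hc (p.succAbove l) (Fin.last n))
          convert this using 2; ring
        · intro l
          rw [Fin.insertNth_apply_succAbove]
          have := ZZ_mul (hxm l) (hc p (Fin.last n))
          convert this using 2; ring
      · intro i
        rw [Fin.sum_univ_succAbove _ p]
        simp only [Fin.insertNth_apply_same, Fin.insertNth_apply_succAbove]
        refine Fin.lastCases ?_ ?_ i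
        · rw [neg_mul, Finset.sum_mul, neg_add_eq_zero]
          exact Finset.sum_congr rfl (fun l _ => by ring)
        · intro i
          rw [neg_mul, Finset.sum_mul, neg_add_eq_sub, ← Finset.sum_sub_distrib]
          rw [← hxe i]
          exact Finset.sum_congr rfl (fun l _ => by ring)
    · push Not at h
      obtain ⟨W, hW, x, hx, hxm, hxe⟩ := ih A B hAB
        (fun l => s l.castSucc) (fun i => m i.castSucc) (fun l => hs _) (fun i => hm _)
        (fun l i => c l.castSucc i.castSucc) (fun l i => hc _ _)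
      refine ⟨W, ?_, Fin.snoc x 0, ?_, ?_, ?_⟩
      · have e : (2 : ℤ) ^ (n + 1) = 2 * 2 ^ n := by ring
        have e2 : (0 : ℤ) < 2 ^ n := by positivity
        rw [e]
        nlinarith
      · obtain ⟨l, hl⟩ := Function.ne_iff.mp hx
        intro h0
        have := congrFun h0 l.castSucc
        simp only [Fin.snoc_castSucc, Pi.zero_apply] at this
        exact hl this
      · intro l
        refine Fin.lastCases ?_ ?_ l
        · rw [Fin.snoc_last]; exact Submodule.zero_mem _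
        · intro l; rw [Fin.snoc_castSucc]; exact hxm l
      · intro i
        rw [Fin.sum_univ_castSucc]
        simp only [Fin.snoc_castSucc, Fin.snoc_last, zero_mul, add_zero]
        refine Fin.lastCases ?_ ?_ i
        · exact Finset.sum_eq_zero (fun l _ => by rw [h, mul_zero])
        · intro i; exact hxe i

/-- sums of elements of weights `t, t-1, ..., t-n+1` -/
noncomputable def Win (n : ℕ) (t : ℤ) : Submodule ℚ ℝ := ⨆ i ∈ Finset.range n, ZZ (t - (i : ℕ))

lemma mem_Win_of {n : ℕ} {t : ℤ} {i : ℕ} (hi : i < n) {x : ℝ} (hx : x ∈ ZZ (t - i)) :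
    x ∈ Win n t :=
  (le_iSup₂_of_le (f := fun (i : ℕ) (_ : i ∈ Finset.range n) => ZZ (t - i)) i
    (Finset.mem_range.mpr hi) le_rfl) hx

lemma mem_Win_iff {n : ℕ} {t : ℤ} {x : ℝ} :
    x ∈ Win n t ↔ ∃ r : ℕ → ℝ, (∀ i : ℕ, r i ∈ ZZ (t - (i : ℤ))) ∧ ∑ i ∈ Finset.range n, r i = x := by
  unfold Win
  rw [Submodule.mem_iSup_finset_iff_exists_sum]
  constructor
  · rintro ⟨μ, hμ⟩
    exact ⟨fun i => (μ i : ℝ), fun i => (μ i).2, hμ⟩
  · rintro ⟨r, hr, hs⟩
    exact ⟨fun i => ⟨r i, hr i⟩, hs⟩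

lemma mul_mem_Win {n : ℕ} {t w : ℤ} {x y : ℝ} (hx : x ∈ Win n t) (hy : y ∈ ZZ w) :
    x * y ∈ Win n (t + w) := by
  rw [mem_Win_iff] at hx ⊢
  obtain ⟨r, hr, rfl⟩ := hx
  refine ⟨fun i => r i * y, fun i => ?_, by rw [Finset.sum_mul]⟩
  have := ZZ_mul (hr i) hy
  convert this using 2; ring

lemma pow_mem_Win {n : ℕ} (hn : 0 < n) {b : ℤ} {z : ℝ} (hz : z ∈ ZZ b)
    (hz' : z ∈ Win n (b - 1)) (k : ℕ) : z ^ k ∈ Win n (k * b - k) := by
  induction k with
  | zero =>
    apply mem_Win_of hn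
    have e : ZZ (((0 : ℕ) : ℤ) * b - ((0 : ℕ) : ℤ) - ((0 : ℕ) : ℤ)) = Z 0 := by
      rw [← ZZ_natCast]; congr 1; simp
    rw [e, pow_zero]; exact one_mem_Z
  | succ k ih =>
    rw [mem_Win_iff] at ih
    obtain ⟨r, hr, hs⟩ := ih
    rw [pow_succ, ← hs, Finset.sum_mul]
    apply Submodule.sum_mem
    intro i hi
    rw [Finset.mem_range] at hi
    rcases Nat.eq_zero_or_pos i with h0 | h0
    · subst h0
      have := mul_mem_Win hz' (hr 0)
      rw [mul_comm (r 0) z]
      convert this using 2; push_cast; ring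
    · apply mem_Win_of (i := i - 1) (by omega)
      have := ZZ_mul (hr i) hz
      convert this using 2
      push_cast [Nat.cast_sub h0]; ring

/-- Propagation: a relation whose weights spread over `n` steps makes every `n + 1` weights
`s 0, ..., s n` contained in a relatively short interval dependent. -/
theorem propagate {n : ℕ} (hn : 0 < n) {b : ℕ} {z : ℝ} (hz0 : z ≠ 0) (hz : z ∈ Z b)
    (hz' : z ∈ Win n (b - 1)) (a δ w₀ : ℕ) (s : Fin (n + 1) → ℕ)
    (hs : ∀ l, a ≤ s l ∧ s l ≤ a + δ) (ha : (2 ^ n - 1) * b * δ + w₀ + 2 ≤ a) :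
    ∃ (N : ℕ) (x : Fin (n + 1) → ℝ), w₀ + 2 ≤ N ∧ x ≠ 0 ∧
      (∀ l, x l ∈ ZZ ((s l : ℤ) - N)) ∧ ∑ l, x l = 0 := by
  have hzb : z ∈ ZZ (b : ℤ) := by rw [ZZ_natCast]; exact hz
  have hwin : ∀ l : Fin (n + 1), ∃ r : ℕ → ℝ,
      (∀ i : ℕ, r i ∈ ZZ ((δ : ℤ) * b - ((s l : ℤ) - a) - (i : ℤ))) ∧ ∑ i ∈ Finset.range n, r i = z ^ δ := by
    intro l
    obtain ⟨h1, h2⟩ := hs l
    obtain ⟨k, hk⟩ : ∃ k, s l = a + k := ⟨s l - a, by omega⟩
    obtain ⟨d, hd⟩ : ∃ d, δ = k + d := ⟨δ - k, by omega⟩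
    have h3 := mul_mem_Win (pow_mem_Win hn hzb hz' k) (ZZ_pow hzb d)
    rw [← pow_add, ← hd, mem_Win_iff] at h3
    obtain ⟨r, hr, hs'⟩ := h3
    refine ⟨r, fun i => ?_, hs'⟩
    have := hr i
    convert this using 2
    rw [hk, hd]; push_cast; ring
  choose r hr hrs using hwin
  obtain ⟨W, hW, x, hx, hxm, hxe⟩ := elim n (a : ℤ) ((a : ℤ) + δ * b)
    (by have : (0 : ℤ) ≤ (δ : ℤ) * b := by positivity
        linarith)
    (fun l => (s l : ℤ)) (fun i => (a : ℤ) + δ * b - (i : ℕ))
    (fun l => by exact_mod_cast (hs l).1)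
    (fun i => by
      have : (0 : ℤ) ≤ ((i : ℕ) : ℤ) := by positivity
      linarith)
    (fun l i => r l i)
    (fun l i => by
      have := hr l i
      convert this using 2; ring)
  have hWle : W ≤ -((w₀ : ℤ) + 2) := by
    have e : ((2 : ℤ) ^ n - 1) * ((a : ℤ) + δ * b - a) = (((2 ^ n - 1) * b * δ : ℕ) : ℤ) := by
      have : 1 ≤ 2 ^ n := Nat.one_le_two_pow
      push_cast [Nat.cast_sub this]; ring
    rw [e] at hW
    have h4 : (((2 ^ n - 1) * b * δ : ℕ) : ℤ) + w₀ + 2 ≤ a := by exact_mod_cast ha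
    linarith
  obtain ⟨N, hN⟩ := Int.eq_ofNat_of_zero_le (show 0 ≤ -W by linarith)
  refine ⟨N, x, ?_, hx, ?_, ?_⟩
  · have : ((w₀ + 2 : ℕ) : ℤ) ≤ N := by push_cast; rw [← hN]; linarith
    exact_mod_cast this
  · intro l
    have := hxm l
    convert this using 2
    rw [← hN]; ring
  · have h5 : (∑ l, x l) * z ^ δ = 0 := by
      calc (∑ l, x l) * z ^ δ = ∑ l, x l * z ^ δ := by rw [Finset.sum_mul]
        _ = ∑ l, ∑ i : Fin n, x l * r l i := by
            refine Finset.sum_congr rfl (fun l _ => ?_)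
            rw [← hrs l, ← Fin.sum_univ_eq_sum_range (fun i => r l i) n, Finset.mul_sum]
        _ = ∑ i : Fin n, ∑ l, x l * r l i := Finset.sum_comm
        _ = 0 := Finset.sum_eq_zero (fun i _ => hxe i)
    exact (mul_eq_zero.mp h5).resolve_right (pow_ne_zero _ hz0)

end Pool.Agent.Work.MP_4d52ff_nt
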