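import Mathlib

set_option autoImplicit false

namespace Pool.Agent.Work.MP_4d52ff_nt

open Finset Filter Topology

/-- the set of multiple zeta values of weight `p` -/
def mzvSet (p : ℕ) : Set ℝ :=
  {x : ℝ | ∃ t : ℕ, ∃ k : Fin t → ℕ,
          (∀ i, 1 ≤ k i) ∧ (∀ h : 0 < t, 2 ≤ k ⟨0, h⟩) ∧ (∑ i, k i) = p ∧
          x = ∑' n : {n : Fin t → ℕ // StrictAnti n ∧ ∀ i, 1 ≤ n i},
                ∏ i, (((n.1 i : ℕ) : ℝ) ^ (k i))⁻¹}

/-- the rational span of the multiple zeta values of weight `p` -/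
noncomputable def Z (p : ℕ) : Submodule ℚ ℝ := Submodule.span ℚ (mzvSet p)

/-- truncated multiple zeta sums (strict upper bound `N` for the largest index) -/
noncomputable def H : List ℕ → ℕ → ℝ
  | [], _ => 1
  | (k :: ks), N => ∑ n ∈ Finset.range N, ((n : ℝ) ^ k)⁻¹ * H ks n

@[simp] lemma H_nil (N : ℕ) : H [] N = 1 := by simp [H]

lemma H_cons (k : ℕ) (ks : List ℕ) (N : ℕ) :
    H (k :: ks) N = ∑ n ∈ Finset.range N, ((n : ℝ) ^ k)⁻¹ * H ks n := by
  simp [H]

lemma H_cons_succ (k : ℕ) (ks : List ℕ) (N : ℕ) :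
    H (k :: ks) (N + 1) = H (k :: ks) N + ((N : ℝ) ^ k)⁻¹ * H ks N := by
  rw [H_cons, H_cons, Finset.sum_range_succ]

@[simp] lemma H_cons_zero (k : ℕ) (ks : List ℕ) : H (k :: ks) 0 = 0 := by
  simp [H_cons]

/-- the quasi-shuffle (stuffle) product of two indices, as a list of indices -/
def stuffle : List ℕ → List ℕ → List (List ℕ)
  | [], l => [l]
  | (a :: k), [] => [a :: k]
  | (a :: k), (b :: l) =>
      (stuffle k (b :: l)).map (fun m => a :: m) ++
      (stuffle (a :: k) l).map (fun m => b :: m) ++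
      (stuffle k l).map (fun m => (a + b) :: m)
termination_by k l => k.length + l.length

lemma stuffle_nil (l : List ℕ) : stuffle [] l = [l] := by simp [stuffle]
lemma stuffle_cons_nil (a : ℕ) (k : List ℕ) : stuffle (a :: k) [] = [a :: k] := by
  simp [stuffle]
lemma stuffle_cons_cons (a b : ℕ) (k l : List ℕ) :
    stuffle (a :: k) (b :: l) =
      (stuffle k (b :: l)).map (fun m => a :: m) ++
      (stuffle (a :: k) l).map (fun m => b :: m) ++
      (stuffle k l).map (fun m => (a + b) :: m) := by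
  rw [stuffle]

lemma sum_H_map_cons_succ (a : ℕ) (L : List (List ℕ)) (N : ℕ) :
    ((L.map (fun m => a :: m)).map (fun m => H m (N + 1))).sum =
      ((L.map (fun m => a :: m)).map (fun m => H m N)).sum +
        ((N : ℝ) ^ a)⁻¹ * (L.map (fun m => H m N)).sum := by
  induction L with
  | nil => simp
  | cons m L ih =>
    simp only [List.map_cons, List.sum_cons] at ih ⊢
    rw [ih, H_cons_succ]
    ring

lemma sum_H_map_cons_zero (a : ℕ) (L : List (List ℕ)) :
    ((L.map (fun m => a :: m)).map (fun m => H m 0)).sum = 0 := by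
  induction L with
  | nil => simp
  | cons m L ih =>
    simp only [List.map_cons, List.sum_cons] at ih ⊢
    rw [ih, H_cons_zero]
    ring

theorem H_mul (k l : List ℕ) (N : ℕ) :
    H k N * H l N = ((stuffle k l).map (fun m => H m N)).sum := by
  induction hn : k.length + l.length using Nat.strong_induction_on generalizing k l N with
  | _ n ih =>
    match k, l with
    | [], l => simp [stuffle_nil]
    | (a :: k), [] => simp [stuffle_cons_nil]
    | (a :: k), (b :: l) =>
      have h1 : ∀ N, H k N * H (b :: l) N = ((stuffle k (b :: l)).map (fun m => H m N)).sum :=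
        fun N => ih _ (by simp only [← hn, List.length_cons]; omega) k (b :: l) N rfl
      have h2 : ∀ N, H (a :: k) N * H l N = ((stuffle (a :: k) l).map (fun m => H m N)).sum :=
        fun N => ih _ (by simp only [← hn, List.length_cons]; omega) (a :: k) l N rfl
      have h3 : ∀ N, H k N * H l N = ((stuffle k l).map (fun m => H m N)).sum :=
        fun N => ih _ (by simp only [← hn, List.length_cons]; omega) k l N rfl
      clear ih hn
      induction N with
      | zero =>
        rw [stuffle_cons_cons, List.map_append, List.map_append, List.sum_append, List.sum_append,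
          sum_H_map_cons_zero, sum_H_map_cons_zero, sum_H_map_cons_zero]
        simp
      | succ N ihN =>
        rw [stuffle_cons_cons, List.map_append, List.map_append, List.sum_append,
          List.sum_append] at ihN ⊢
        rw [sum_H_map_cons_succ, sum_H_map_cons_succ, sum_H_map_cons_succ, ← h1, ← h2, ← h3,
          H_cons_succ, H_cons_succ]
        have e : ((N : ℝ) ^ (a + b))⁻¹ = ((N : ℝ) ^ a)⁻¹ * ((N : ℝ) ^ b)⁻¹ := by
          rw [pow_add, mul_inv]
        rw [e]
        linear_combination ihN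

/-- admissible indices -/
def Adm (k : List ℕ) : Prop := (∀ x ∈ k, 1 ≤ x) ∧ (∀ x ∈ k.head?, 2 ≤ x)

lemma Adm_nil : Adm [] := by simp [Adm]

lemma Adm_cons (a : ℕ) (k : List ℕ) : Adm (a :: k) ↔ 2 ≤ a ∧ ∀ x ∈ k, 1 ≤ x := by
  simp only [Adm, List.mem_cons, forall_eq_or_imp, List.head?_cons, Option.mem_def,
    Option.some.injEq, forall_eq']
  constructor
  · rintro ⟨⟨-, h1⟩, h2⟩; exact ⟨h2, h1⟩
  · rintro ⟨h1, h2⟩; exact ⟨⟨by omega, h2⟩, h1⟩

lemma stuffle_pos (k l : List ℕ) (hk : ∀ x ∈ k, 1 ≤ x) (hl : ∀ x ∈ l, 1 ≤ x) :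
    ∀ m ∈ stuffle k l, (∀ x ∈ m, 1 ≤ x) ∧ m.sum = k.sum + l.sum := by
  induction hn : k.length + l.length using Nat.strong_induction_on generalizing k l with
  | _ n ih =>
    match k, l with
    | [], l =>
      intro m hm
      rw [stuffle_nil] at hm
      simp only [List.mem_singleton] at hm
      subst hm
      simpa using hl
    | (a :: k), [] =>
      intro m hm
      rw [stuffle_cons_nil] at hm
      simp only [List.mem_singleton] at hm
      subst hm
      simpa using hk
    | (a :: k), (b :: l) =>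
      have hk' : ∀ x ∈ k, 1 ≤ x := fun x hx => hk x (List.mem_cons_of_mem _ hx)
      have hl' : ∀ x ∈ l, 1 ≤ x := fun x hx => hl x (List.mem_cons_of_mem _ hx)
      have ha : 1 ≤ a := hk a List.mem_cons_self
      have hb : 1 ≤ b := hl b List.mem_cons_self
      have h1 := ih _ (by simp only [← hn, List.length_cons]; omega) k (b :: l) hk' hl rfl
      have h2 := ih _ (by simp only [← hn, List.length_cons]; omega) (a :: k) l hk hl' rfl
      have h3 := ih _ (by simp only [← hn, List.length_cons]; omega) k l hk' hl' rfl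
      intro m hm
      rw [stuffle_cons_cons] at hm
      simp only [List.append_assoc, List.mem_append, List.mem_map] at hm
      rcases hm with ⟨m', hm', rfl⟩ | ⟨m', hm', rfl⟩ | ⟨m', hm', rfl⟩
      · obtain ⟨q1, q2⟩ := h1 m' hm'
        refine ⟨?_, ?_⟩
        · simp only [List.mem_cons, forall_eq_or_imp]; exact ⟨ha, q1⟩
        · simp only [List.sum_cons] at q2 ⊢; omega
      · obtain ⟨q1, q2⟩ := h2 m' hm'
        refine ⟨?_, ?_⟩
        · simp only [List.mem_cons, forall_eq_or_imp]; exact ⟨hb, q1⟩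
        · simp only [List.sum_cons] at q2 ⊢; omega
      · obtain ⟨q1, q2⟩ := h3 m' hm'
        refine ⟨?_, ?_⟩
        · simp only [List.mem_cons, forall_eq_or_imp]; exact ⟨by omega, q1⟩
        · simp only [List.sum_cons] at q2 ⊢; omega

lemma stuffle_adm (k l : List ℕ) (hk : Adm k) (hl : Adm l) :
    ∀ m ∈ stuffle k l, Adm m ∧ m.sum = k.sum + l.sum := by
  intro m hm
  obtain ⟨hp, hs⟩ := stuffle_pos k l hk.1 hl.1 m hm
  refine ⟨?_, hs⟩
  match k, l with
  | [], l =>
    rw [stuffle_nil] at hm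
    simp only [List.mem_singleton] at hm
    subst hm; exact hl
  | (a :: k), [] =>
    rw [stuffle_cons_nil] at hm
    simp only [List.mem_singleton] at hm
    subst hm; exact hk
  | (a :: k), (b :: l) =>
    rw [Adm_cons] at hk hl
    rw [stuffle_cons_cons] at hm
    simp only [List.append_assoc, List.mem_append, List.mem_map] at hm
    rcases hm with ⟨m', hm', rfl⟩ | ⟨m', hm', rfl⟩ | ⟨m', hm', rfl⟩
    · rw [Adm_cons]
      exact ⟨hk.1, fun x hx => hp x (List.mem_cons_of_mem _ hx)⟩
    · rw [Adm_cons]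
      exact ⟨hl.1, fun x hx => hp x (List.mem_cons_of_mem _ hx)⟩
    · rw [Adm_cons]
      exact ⟨by omega, fun x hx => hp x (List.mem_cons_of_mem _ hx)⟩

/-! ### Convergence -/

lemma H_nonneg (k : List ℕ) (N : ℕ) : 0 ≤ H k N := by
  induction k generalizing N with
  | nil => simp
  | cons a k ih =>
    rw [H_cons]
    exact Finset.sum_nonneg (fun n _ => mul_nonneg (by positivity) (ih n))

lemma H_mono (k : List ℕ) : Monotone (H k) := by
  cases k with
  | nil => intro a b _; simp
  | cons a k =>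
    refine monotone_nat_of_le_succ (fun n => ?_)
    rw [H_cons_succ]
    have := mul_nonneg (by positivity : 0 ≤ ((n : ℝ) ^ a)⁻¹) (H_nonneg k n)
    linarith

/-- auxiliary product `∏_{1 ≤ j < N} (1 + 1/(2j))` -/
noncomputable def aux : ℕ → ℝ
  | 0 => 1
  | (N + 1) => aux N * (1 + (2 * (N : ℝ))⁻¹)

lemma aux_pos (N : ℕ) : 0 < aux N := by
  induction N with
  | zero => simp [aux]
  | succ N ih => rw [aux]; positivity

lemma H_le_aux (k : List ℕ) (hk : ∀ x ∈ k, 1 ≤ x) (N : ℕ) :
    H k N ≤ 2 ^ k.length * aux N := by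
  induction k generalizing N with
  | nil =>
    simp only [H_nil, List.length_nil, pow_zero, one_mul]
    induction N with
    | zero => simp [aux]
    | succ N ih =>
      rw [aux]
      have : (0 : ℝ) ≤ (2 * (N : ℝ))⁻¹ := by positivity
      nlinarith
  | cons a k ih =>
    have ha : 1 ≤ a := hk a List.mem_cons_self
    have hk' : ∀ x ∈ k, 1 ≤ x := fun x hx => hk x (List.mem_cons_of_mem _ hx)
    induction N with
    | zero => simp [aux]
    | succ N ihN =>
      rw [H_cons_succ, aux]
      have h1 := ih hk' N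
      have h2 : ((N : ℝ) ^ a)⁻¹ ≤ (N : ℝ)⁻¹ := by
        rcases Nat.eq_zero_or_pos N with h | h
        · subst h
          simp [show a ≠ 0 by omega]
        · have : (1 : ℝ) ≤ N := by exact_mod_cast h
          exact inv_anti₀ (by positivity) (le_self_pow₀ this (by omega))
      have h3 : ((N : ℝ) ^ a)⁻¹ * H k N ≤ (N : ℝ)⁻¹ * (2 ^ k.length * aux N) :=
        mul_le_mul h2 h1 (H_nonneg _ _) (by positivity)
      have h4 : (2 : ℝ) ^ (a :: k).length * (aux N * (1 + (2 * (N : ℝ))⁻¹)) =
          (2 : ℝ) ^ (a :: k).length * aux N + (N : ℝ)⁻¹ * (2 ^ k.length * aux N) := by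
        rw [List.length_cons, pow_succ, mul_inv]
        ring
      rw [h4]
      linarith

lemma sum_aux_le (N : ℕ) :
    ∑ n ∈ Finset.range N, ((n : ℝ) ^ 2)⁻¹ * aux n ≤ 4 := by
  have key : ∀ N : ℕ, ∑ n ∈ Finset.range (N + 1), ((n : ℝ) ^ 2)⁻¹ * aux n ≤
      4 * (aux 1 - aux (N + 1) / (N + 1 : ℝ)) := by
    intro N
    induction N with
    | zero => simp
    | succ N ih =>
      rw [Finset.sum_range_succ]
      refine (add_le_add_left ih _).trans ?_
      have hN : (0 : ℝ) < (N : ℝ) + 1 := by positivity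
      have hx : aux (N + 1 + 1) = aux (N + 1) * (1 + (2 * ((N : ℝ) + 1))⁻¹) := by
        rw [aux]; push_cast; rfl
      rw [hx]
      push_cast
      have ha := aux_pos (N + 1)
      have h : (((N : ℝ) + 1) ^ 2)⁻¹ * aux (N + 1) ≤
          4 * (aux (N + 1) / (N + 1 : ℝ) -
            aux (N + 1) * (1 + (2 * ((N : ℝ) + 1))⁻¹) / ((N : ℝ) + 1 + 1)) := by
        have e : aux (N + 1) / (N + 1 : ℝ) -
            aux (N + 1) * (1 + (2 * ((N : ℝ) + 1))⁻¹) / ((N : ℝ) + 1 + 1) =
            aux (N + 1) * (1 / (2 * ((N : ℝ) + 1) * ((N : ℝ) + 2))) := by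
          field_simp
          ring
        rw [e]
        have h5 : (((N : ℝ) + 1) ^ 2)⁻¹ ≤ 4 * (1 / (2 * ((N : ℝ) + 1) * ((N : ℝ) + 2))) := by
          rw [inv_eq_one_div, ← mul_div_assoc, div_le_div_iff₀ (by positivity) (by positivity)]
          nlinarith
        nlinarith
      linarith
  rcases Nat.eq_zero_or_pos N with h | h
  · subst h; simp
  · obtain ⟨M, rfl⟩ : ∃ M, N = M + 1 := ⟨N - 1, by omega⟩
    refine (key M).trans ?_
    have h1 : aux 1 = 1 := by simp [aux]
    have h2 : 0 ≤ aux (M + 1) / (M + 1 : ℝ) := by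
      have := aux_pos (M + 1)
      positivity
    rw [h1]; linarith

lemma H_bdd (k : List ℕ) (hk : Adm k) : ∃ C, ∀ N, H k N ≤ C := by
  cases k with
  | nil => exact ⟨1, fun N => by simp⟩
  | cons a k =>
    rw [Adm_cons] at hk
    refine ⟨2 ^ k.length * 4, fun N => ?_⟩
    rw [H_cons]
    calc ∑ n ∈ Finset.range N, ((n : ℝ) ^ a)⁻¹ * H k n
        ≤ ∑ n ∈ Finset.range N, 2 ^ k.length * (((n : ℝ) ^ 2)⁻¹ * aux n) := by
          refine Finset.sum_le_sum (fun n _ => ?_)
          have h1 := H_le_aux k hk.2 n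
          have h2 : ((n : ℝ) ^ a)⁻¹ ≤ ((n : ℝ) ^ 2)⁻¹ := by
            rcases Nat.eq_zero_or_pos n with h | h
            · subst h
              simp [show a ≠ 0 by omega]
            · have : (1 : ℝ) ≤ n := by exact_mod_cast h
              exact inv_anti₀ (by positivity) (pow_le_pow_right₀ this hk.1)
          have h3 := mul_le_mul h2 h1 (H_nonneg _ _) (by positivity)
          calc _ ≤ _ := h3
            _ = _ := by ring
      _ = 2 ^ k.length * ∑ n ∈ Finset.range N, ((n : ℝ) ^ 2)⁻¹ * aux n := by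
          rw [Finset.mul_sum]
      _ ≤ 2 ^ k.length * 4 := by
          have := sum_aux_le N
          gcongr

/-- the multiple zeta value attached to a list -/
noncomputable def zetaL (k : List ℕ) : ℝ := ⨆ N, H k N

lemma tendsto_H (k : List ℕ) (hk : Adm k) : Tendsto (H k) atTop (𝓝 (zetaL k)) := by
  obtain ⟨C, hC⟩ := H_bdd k hk
  exact tendsto_atTop_ciSup (H_mono k) ⟨C, by rintro _ ⟨N, rfl⟩; exact hC N⟩

lemma zetaL_mul (k l : List ℕ) (hk : Adm k) (hl : Adm l) :
    zetaL k * zetaL l = ((stuffle k l).map zetaL).sum := by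
  have h1 := (tendsto_H k hk).mul (tendsto_H l hl)
  have h2 : Tendsto (fun N => ((stuffle k l).map (fun m => H m N)).sum) atTop
      (𝓝 (((stuffle k l).map zetaL).sum)) := by
    apply tendsto_list_sum
    intro m hm
    exact tendsto_H m (stuffle_adm k l hk hl m hm).1
  refine tendsto_nhds_unique h1 ?_
  simpa only [H_mul] using h2

/-! ### Comparison with the infinite sum over strictly decreasing tuples -/

/-- the finite set of strictly decreasing tuples of positive integers below `N` -/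
def T (t N : ℕ) : Finset (Fin t → ℕ) :=
  (Fintype.piFinset (fun _ : Fin t => Finset.range N)).filter
    (fun n => StrictAnti n ∧ ∀ i, 1 ≤ n i)

lemma mem_T {t N : ℕ} {n : Fin t → ℕ} :
    n ∈ T t N ↔ (∀ i, n i < N) ∧ StrictAnti n ∧ ∀ i, 1 ≤ n i := by
  simp [T]

lemma strictAnti_cons {t : ℕ} (m : ℕ) (n : Fin t → ℕ) :
    StrictAnti (Fin.cons m n : Fin (t + 1) → ℕ) ↔ (∀ i, n i < m) ∧ StrictAnti n := by
  constructor
  · intro h
    refine ⟨fun i => ?_, fun i j hij => ?_⟩
    · have := h (Fin.succ_pos i)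
      simpa using this
    · have := h (Fin.succ_lt_succ_iff.mpr hij)
      simpa using this
  · rintro ⟨h1, h2⟩ i j hij
    induction i using Fin.cases with
    | zero =>
      induction j using Fin.cases with
      | zero => exact absurd hij (lt_irrefl _)
      | succ j => simpa using h1 j
    | succ i =>
      induction j using Fin.cases with
      | zero => exact absurd hij (by simp)
      | succ j => simpa using h2 (Fin.succ_lt_succ_iff.mp hij)

lemma sum_T (t : ℕ) (k : Fin t → ℕ) (hk : ∀ i, 1 ≤ k i) (N : ℕ) :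
    ∑ n ∈ T t N, ∏ i, (((n i : ℕ) : ℝ) ^ (k i))⁻¹ = H (List.ofFn k) N := by
  induction t generalizing N with
  | zero =>
    have : T 0 N = {default} := by
      ext n
      simp only [mem_T, Finset.mem_singleton]
      constructor
      · intro _; exact Subsingleton.elim _ _
      · intro _
        exact ⟨fun i => i.elim0, fun i => i.elim0, fun i => i.elim0⟩
    rw [this]
    simp
  | succ t ih =>
    rw [List.ofFn_succ, H_cons]
    have hk0 := hk 0
    have h1 : ∑ n ∈ Finset.range N, ((n : ℝ) ^ k 0)⁻¹ * H (List.ofFn fun i => k i.succ) n =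
        ∑ n ∈ Finset.Ico 1 N, ((n : ℝ) ^ k 0)⁻¹ * H (List.ofFn fun i => k i.succ) n := by
      symm
      apply Finset.sum_subset
      · intro x hx
        simp only [Finset.mem_Ico] at hx
        simp [hx.2]
      · intro x hx hx'
        simp only [Finset.mem_range, Finset.mem_Ico, not_and, not_lt] at hx hx'
        have : x = 0 := by
          by_contra h
          exact absurd (hx' (by omega)) (by omega)
        subst this
        simp [show k 0 ≠ 0 by omega]
    rw [h1]
    have h2 : ∀ n ∈ Finset.Ico 1 N, ((n : ℝ) ^ k 0)⁻¹ * H (List.ofFn fun i => k i.succ) n =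
        ∑ n' ∈ T t n, ((n : ℝ) ^ k 0)⁻¹ * ∏ i, (((n' i : ℕ) : ℝ) ^ (k i.succ))⁻¹ := by
      intro n _
      rw [← ih (fun i => k i.succ) (fun i => hk _) n, Finset.mul_sum]
    rw [Finset.sum_congr rfl h2, Finset.sum_sigma']
    refine Finset.sum_bij' (fun n _ => ⟨n 0, fun i => n i.succ⟩)
      (fun p _ => Fin.cons p.1 p.2) ?_ ?_ ?_ ?_ ?_
    · intro n hn
      rw [mem_T] at hn
      obtain ⟨h1, h2, h3⟩ := hn
      simp only [Finset.mem_sigma, Finset.mem_Ico, mem_T]
      refine ⟨⟨h3 0, h1 0⟩, fun i => h2 (Fin.succ_pos i), fun i j hij => ?_, fun i => h3 _⟩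
      exact h2 (Fin.succ_lt_succ_iff.mpr hij)
    · rintro ⟨m, n⟩ hn
      simp only [Finset.mem_sigma, Finset.mem_Ico, mem_T] at hn
      obtain ⟨⟨h1, h2⟩, h3, h4, h5⟩ := hn
      rw [mem_T]
      refine ⟨?_, ?_, ?_⟩
      · intro i
        induction i using Fin.cases with
        | zero => simpa using h2
        | succ i => simpa using (h3 i).trans h2
      · rw [strictAnti_cons]; exact ⟨h3, h4⟩
      · intro i
        induction i using Fin.cases with
        | zero => simpa using h1
        | succ i => simpa using h5 i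
    · intro n _
      ext i
      induction i using Fin.cases with
      | zero => simp
      | succ i => simp
    · rintro ⟨m, n⟩ _
      simp
    · intro n _
      rw [Fin.prod_univ_succ]

lemma T_mono (t : ℕ) : Monotone (T t) := by
  intro a b hab n hn
  rw [mem_T] at hn ⊢
  exact ⟨fun i => (hn.1 i).trans_le hab, hn.2⟩

lemma adm_ofFn {t : ℕ} {k : Fin t → ℕ} (h1 : ∀ i, 1 ≤ k i) (h2 : ∀ h : 0 < t, 2 ≤ k ⟨0, h⟩) :
    Adm (List.ofFn k) := by
  refine ⟨?_, ?_⟩
  · intro x hx
    rw [List.mem_ofFn] at hx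
    obtain ⟨i, rfl⟩ := hx
    exact h1 i
  · intro x hx
    cases t with
    | zero => simp at hx
    | succ t =>
      rw [List.ofFn_succ] at hx
      simp only [List.head?_cons, Option.mem_def, Option.some.injEq] at hx
      subst hx
      exact h2 (Nat.succ_pos _)

/-- the terms of the infinite sum -/
noncomputable def term {t : ℕ} (k : Fin t → ℕ)
    (n : {n : Fin t → ℕ // StrictAnti n ∧ ∀ i, 1 ≤ n i}) : ℝ :=
  ∏ i, (((n.1 i : ℕ) : ℝ) ^ (k i))⁻¹

lemma term_nonneg {t : ℕ} (k : Fin t → ℕ)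
    (n : {n : Fin t → ℕ // StrictAnti n ∧ ∀ i, 1 ≤ n i}) : 0 ≤ term k n := by
  unfold term
  positivity

/-- `T t N` as a finset of the subtype -/
def TT (t N : ℕ) : Finset {n : Fin t → ℕ // StrictAnti n ∧ ∀ i, 1 ≤ n i} :=
  (T t N).subtype _

lemma mem_TT {t N : ℕ} {n : {n : Fin t → ℕ // StrictAnti n ∧ ∀ i, 1 ≤ n i}} :
    n ∈ TT t N ↔ ∀ i, n.1 i < N := by
  simp only [TT, Finset.mem_subtype, mem_T]
  exact ⟨fun h => h.1, fun h => ⟨h, n.2⟩⟩

lemma sum_TT (t : ℕ) (k : Fin t → ℕ) (hk : ∀ i, 1 ≤ k i) (N : ℕ) :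
    ∑ n ∈ TT t N, term k n = H (List.ofFn k) N := by
  rw [← sum_T t k hk N]
  unfold TT term
  rw [Finset.sum_subtype_eq_sum_filter (f := fun n : Fin t → ℕ => ∏ i, (((n i : ℕ) : ℝ) ^ (k i))⁻¹)]
  congr 1
  ext n
  simp only [Finset.mem_filter, mem_T]
  tauto

lemma tendsto_TT (t : ℕ) : Tendsto (TT t) atTop atTop := by
  apply tendsto_atTop_finset_of_monotone
  · intro a b hab n hn
    rw [mem_TT] at hn ⊢
    exact fun i => (hn i).trans_le hab
  · intro n
    refine ⟨(∑ i, n.1 i) + 1, ?_⟩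
    rw [mem_TT]
    intro i
    have := Finset.single_le_sum (f := n.1) (fun i _ => Nat.zero_le _) (Finset.mem_univ i)
    omega

lemma summable_term {t : ℕ} (k : Fin t → ℕ) (h1 : ∀ i, 1 ≤ k i)
    (h2 : ∀ h : 0 < t, 2 ≤ k ⟨0, h⟩) : Summable (term k) := by
  obtain ⟨C, hC⟩ := H_bdd _ (adm_ofFn h1 h2)
  refine summable_of_sum_le (c := C) (term_nonneg k) (fun u => ?_)
  obtain ⟨N, hN⟩ := ((tendsto_TT t).eventually_ge_atTop u).exists
  calc ∑ x ∈ u, term k x ≤ ∑ x ∈ TT t N, term k x :=
        Finset.sum_le_sum_of_subset_of_nonneg hN (fun x _ _ => term_nonneg k x)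
    _ = H (List.ofFn k) N := sum_TT t k h1 N
    _ ≤ C := hC N

lemma tsum_term {t : ℕ} (k : Fin t → ℕ) (h1 : ∀ i, 1 ≤ k i)
    (h2 : ∀ h : 0 < t, 2 ≤ k ⟨0, h⟩) : ∑' n, term k n = zetaL (List.ofFn k) := by
  have hs := (summable_term k h1 h2).hasSum.comp (tendsto_TT t)
  refine tendsto_nhds_unique hs ?_
  have := tendsto_H _ (adm_ofFn h1 h2)
  refine this.congr (fun N => ?_)
  exact (sum_TT t k h1 N).symm

lemma mem_mzvSet_iff (p : ℕ) (x : ℝ) :
    x ∈ mzvSet p ↔ ∃ k : List ℕ, Adm k ∧ k.sum = p ∧ x = zetaL k := by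
  constructor
  · rintro ⟨t, k, h1, h2, h3, rfl⟩
    refine ⟨List.ofFn k, adm_ofFn h1 h2, ?_, ?_⟩
    · rw [List.sum_ofFn]; exact h3
    · exact tsum_term k h1 h2
  · rintro ⟨k, hk, hs, rfl⟩
    refine ⟨k.length, fun i => k.get i, ?_, ?_, ?_, ?_⟩
    · intro i
      exact hk.1 _ (List.get_mem _ _)
    · intro h
      cases k with
      | nil => simp at h
      | cons a k =>
        rw [Adm_cons] at hk
        exact hk.1
    · rw [← hs, ← List.sum_ofFn, List.ofFn_get]
    · have h1 : ∀ i : Fin k.length, 1 ≤ k.get i := fun i => hk.1 _ (List.get_mem _ _)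
      have h2 : ∀ h : 0 < k.length, 2 ≤ k.get ⟨0, h⟩ := by
        intro h
        cases k with
        | nil => simp at h
        | cons a k =>
          rw [Adm_cons] at hk
          exact hk.1
      have := tsum_term (fun i => k.get i) h1 h2
      rw [List.ofFn_get] at this
      exact this.symm

lemma zetaL_mem (k : List ℕ) (hk : Adm k) : zetaL k ∈ Z k.sum :=
  Submodule.subset_span ((mem_mzvSet_iff _ _).2 ⟨k, hk, rfl, rfl⟩)

theorem Z_mul {a b : ℕ} {x y : ℝ} (hx : x ∈ Z a) (hy : y ∈ Z b) : x * y ∈ Z (a + b) := by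
  unfold Z at hx hy
  induction hx using Submodule.span_induction with
  | mem x hx =>
    induction hy using Submodule.span_induction with
    | mem y hy =>
      rw [mem_mzvSet_iff] at hx hy
      obtain ⟨k, hk, rfl, rfl⟩ := hx
      obtain ⟨l, hl, rfl, rfl⟩ := hy
      rw [zetaL_mul k l hk hl]
      apply list_sum_mem
      intro z hz
      rw [List.mem_map] at hz
      obtain ⟨m, hm, rfl⟩ := hz
      obtain ⟨q1, q2⟩ := stuffle_adm k l hk hl m hm
      rw [← q2]
      exact zetaL_mem m q1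
    | zero => rw [mul_zero]; exact Submodule.zero_mem _
    | add y z _ _ h1 h2 => rw [mul_add]; exact Submodule.add_mem _ h1 h2
    | smul c y _ h => rw [mul_smul_comm]; exact Submodule.smul_mem _ _ h
  | zero => rw [zero_mul]; exact Submodule.zero_mem _
  | add y z _ _ h1 h2 => rw [add_mul]; exact Submodule.add_mem _ h1 h2
  | smul c y _ h => rw [smul_mul_assoc]; exact Submodule.smul_mem _ _ h

lemma one_mem_Z : (1 : ℝ) ∈ Z 0 := by
  have h := zetaL_mem [] Adm_nil
  have e : zetaL [] = 1 := by simp [zetaL]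
  rw [e] at h
  simpa using h

lemma zetaL_pos (k : List ℕ) (hk : Adm k) : 0 < zetaL k := by
  have key : ∀ k : List ℕ, ∃ N, 0 < H k N := by
    intro k
    induction k with
    | nil => exact ⟨0, by simp⟩
    | cons a k ih =>
      obtain ⟨N, hN⟩ := ih
      refine ⟨N + 2, ?_⟩
      have h1 : 0 < H k (N + 1) := lt_of_lt_of_le hN (H_mono k (Nat.le_succ N))
      rw [show N + 2 = (N + 1) + 1 from rfl, H_cons_succ]
      have h2 := H_nonneg (a :: k) (N + 1)
      have h3 : 0 < (((N + 1 : ℕ) : ℝ) ^ a)⁻¹ := by positivity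
      have := mul_pos h3 h1
      linarith
  obtain ⟨N, hN⟩ := key k
  obtain ⟨C, hC⟩ := H_bdd k hk
  exact lt_of_lt_of_le hN (le_ciSup (f := H k) ⟨C, by rintro _ ⟨N, rfl⟩; exact hC N⟩ N)

/-- `Z p` contains a nonzero element for `p = 0` and `p ≥ 2` -/
lemma exists_ne_zero_mem_Z (p : ℕ) (hp : p ≠ 1) : ∃ x ∈ Z p, x ≠ 0 := by
  rcases Nat.eq_zero_or_pos p with h | h
  · subst h; exact ⟨1, one_mem_Z, one_ne_zero⟩
  · have hA : Adm [p] := by rw [Adm_cons]; exact ⟨by omega, by simp⟩
    refine ⟨zetaL [p], ?_, (zetaL_pos _ hA).ne'⟩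
    have := zetaL_mem _ hA
    simpa using this

lemma H_single (s N : ℕ) : H [s] N = ∑ n ∈ Finset.range N, ((n : ℝ) ^ s)⁻¹ := by
  simp [H_cons]

lemma zetaL_two : zetaL [2] = Real.pi ^ 2 / 6 := by
  have hA : Adm [2] := by rw [Adm_cons]; exact ⟨le_refl _, by simp⟩
  have h1 := tendsto_H _ hA
  have h2 := hasSum_zeta_two.tendsto_sum_nat
  refine tendsto_nhds_unique h1 (h2.congr (fun N => ?_))
  rw [H_single]
  simp

lemma pi_sq_mem : Real.pi ^ 2 ∈ Z 2 := by
  have hA : Adm [2] := by rw [Adm_cons]; exact ⟨le_refl _, by simp⟩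
  have h := zetaL_mem _ hA
  rw [zetaL_two] at h
  have h' := Submodule.smul_mem _ (6 : ℚ) h
  have e : (6 : ℚ) • (Real.pi ^ 2 / 6) = Real.pi ^ 2 := by
    rw [Rat.smul_def]; push_cast; ring
  rw [e] at h'
  simpa using h'

end Pool.Agent.Work.MP_4d52ff_nt
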